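import Pool.Agent.Helper99.MLT.SumT

/-!
# Project MLT (MP_e66f84_ag), block CLT: the counting theorem with prescribed conditions
-/

set_option autoImplicit false

namespace Pool.Agent.MLT99

open Filter Topology
open Pool.Agent.MLT (WJbt TBRbt)
open Pool.Agent.MP (SysR TAR)
open Pool.Agent.Helper99.HG (CD pf Nm Bad TA pr Js sc sc_lt sc_le sc_pos mem_pf zz log_ge_one
  zz_mono zz_top zz_zero zz_two log_zz_le le_log_zz ll_le le_ll ll_diff ll_diff' irr_card)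
open Pool.Agent.Helper99.ML (SysW mem_pr nm_le_Nm Nm_pos BTb BTc MertK hallK99 countK_le99
  smoothK99 zz_pow4_99 res mem_Ex_res up mem_up val_mem_up sum_up card_up up_mono Nm_up sys_res
  TA_res BT_res pf_up Bad_res)
open Pool.Agent.TW37 (EE EE_ge_one)

variable {k : ℕ} {G : Type} {b : ℝ}

/-- the weights are less than `κ` in the mean, uniformly in the given products -/
def TBKt (D : CD k G) (b κ : ℝ) (J : Finset (Fin k)) : Prop :=
  J.Nonempty ∧ ∃ δ C : ℝ, 0 < δ ∧ ∀ y x : ℕ, 2 ≤ y → y ≤ x → ∀ t : D.P → Fin k → D.ι → G,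
    ∀ S : Finset D.P, (∀ p, p ∈ S ↔ p ∉ D.Ex ∧ y < D.nm p ∧ D.nm p ≤ x) →
    ∑ p ∈ S, WJbt D b J (t p) p / D.nm p ≤ (κ - δ) * (Real.log (Real.log x) - Real.log (Real.log y)) + C

private theorem ll_monoT99 {y x : ℕ} (hy : 2 ≤ y) (h : y ≤ x) : Real.log (Real.log y) ≤ Real.log (Real.log x) :=
  Real.log_le_log (Real.log_pos (by exact_mod_cast (by omega : 1 < y)))
    (Real.log_le_log (by exact_mod_cast (by omega : 0 < y)) (by exact_mod_cast h))

/-- uniform constants for the components of the second kind -/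
private theorem unif_BT99 (D : CD k G) {κ : ℝ} (hκ0 : 0 < κ) : ∃ δ C : ℝ, 0 < δ ∧ δ ≤ κ ∧ δ ≤ 1 ∧ 0 ≤ C ∧ ∀ J, TBKt D b κ J → ∀ y x : ℕ, 2 ≤ y → y ≤ x →
    ∀ t : D.P → Fin k → D.ι → G, ∀ S : Finset D.P, (∀ p, p ∈ S ↔ p ∉ D.Ex ∧ y < D.nm p ∧ D.nm p ≤ x) →
      ∑ p ∈ S, WJbt D b J (t p) p / D.nm p ≤ (κ - δ) * (Real.log (Real.log x) - Real.log (Real.log y)) + C := by
  classical
  have h : ∀ J : Finset (Fin k), ∃ δ C : ℝ, 0 < δ ∧ δ ≤ 1 ∧ 0 ≤ C ∧ (TBKt D b κ J → ∀ y x : ℕ, 2 ≤ y → y ≤ x →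
      ∀ t : D.P → Fin k → D.ι → G, ∀ S : Finset D.P, (∀ p, p ∈ S ↔ p ∉ D.Ex ∧ y < D.nm p ∧ D.nm p ≤ x) →
      ∑ p ∈ S, WJbt D b J (t p) p / D.nm p ≤ (κ - δ) * (Real.log (Real.log x) - Real.log (Real.log y)) + C) := by
    intro J
    by_cases hJ : TBKt D b κ J
    · obtain ⟨_, δ, C, h1, h2⟩ := id hJ
      refine ⟨min δ 1, |C|, lt_min h1 one_pos, min_le_right _ _, abs_nonneg C, fun _ y x hy hx t S hS => ?_⟩
      have h3 := h2 y x hy hx t S hS
      have h4 := ll_monoT99 hy hx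
      have h5 : (κ - δ) * (Real.log (Real.log x) - Real.log (Real.log y)) ≤ (κ - min δ 1) * (Real.log (Real.log x) - Real.log (Real.log y)) :=
        mul_le_mul_of_nonneg_right (by linarith [min_le_left δ 1]) (by linarith)
      linarith [le_abs_self C]
    · exact ⟨1, 0, one_pos, le_rfl, le_rfl, fun h => absurd h hJ⟩
  choose δ C h1 h2 h3 h4 using h
  have hP : 0 < ∏ J, δ J := Finset.prod_pos fun J _ => h1 J
  refine ⟨min (∏ J, δ J) κ, ∑ J, C J, lt_min hP hκ0, min_le_right _ _,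
    (min_le_left _ _).trans (Finset.prod_le_one (fun J _ => (h1 J).le) fun J _ => h2 J), Finset.sum_nonneg fun J _ => h3 J, fun J hJ y x hy hx t S hS => ?_⟩
  have h5 := h4 J hJ y x hy hx t S hS
  have h6 : min (∏ J, δ J) κ ≤ δ J := by
    refine (min_le_left _ _).trans ?_
    rw [← Finset.mul_prod_erase Finset.univ δ (Finset.mem_univ J)]
    have : ∏ J ∈ Finset.univ.erase J, δ J ≤ 1 := Finset.prod_le_one (fun J _ => (h1 J).le) fun J _ => h2 J
    nlinarith [h1 J]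
  have h7 : C J ≤ ∑ J, C J := Finset.single_le_sum (fun J _ => h3 J) (Finset.mem_univ J)
  have h8 := ll_monoT99 hy hx
  have h9 : (κ - δ J) * (Real.log (Real.log x) - Real.log (Real.log y)) ≤ (κ - min (∏ J, δ J) κ) * (Real.log (Real.log x) - Real.log (Real.log y)) :=
    mul_le_mul_of_nonneg_right (by linarith) (by linarith)
  linarith

/-- uniform constants for the components of the first kind -/
private theorem unif_AT99 (D : CD k G) : ∃ δ C : ℝ, 0 < δ ∧ 0 ≤ C ∧ ∀ J, TA D J → ∀ y x : ℕ, 2 ≤ y → y ≤ x →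
    ∀ S : Finset D.P, (∀ p, p ∈ S ↔ p ∉ D.Ex ∧ y < D.nm p ∧ D.nm p ≤ x ∧ ∀ o ∈ D.V p, D.cmp o ∉ J) →
      δ * (Real.log (Real.log x) - Real.log (Real.log y)) - C ≤ ∑ p ∈ S, (1 : ℝ) / D.nm p := by
  classical
  have h : ∀ J : Finset (Fin k), ∃ δ C : ℝ, 0 < δ ∧ δ ≤ 1 ∧ 0 ≤ C ∧ (TA D J → ∀ y x : ℕ, 2 ≤ y → y ≤ x →
      ∀ S : Finset D.P, (∀ p, p ∈ S ↔ p ∉ D.Ex ∧ y < D.nm p ∧ D.nm p ≤ x ∧ ∀ o ∈ D.V p, D.cmp o ∉ J) →
      δ * (Real.log (Real.log x) - Real.log (Real.log y)) - C ≤ ∑ p ∈ S, (1 : ℝ) / D.nm p) := by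
    intro J
    by_cases hJ : TA D J
    · obtain ⟨δ, C, h1, h2⟩ := id hJ
      refine ⟨min δ 1, |C|, lt_min h1 one_pos, min_le_right _ _, abs_nonneg C, fun _ y x hy hx S hS => ?_⟩
      have h3 := h2 y x hy hx S hS
      have h4 := ll_monoT99 hy hx
      have h5 : min δ 1 * (Real.log (Real.log x) - Real.log (Real.log y)) ≤ δ * (Real.log (Real.log x) - Real.log (Real.log y)) :=
        mul_le_mul_of_nonneg_right (min_le_left δ 1) (by linarith)
      linarith [le_abs_self C]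
    · exact ⟨1, 0, one_pos, le_rfl, le_rfl, fun h => absurd h hJ⟩
  choose δ C h1 h2 h3 h4 using h
  refine ⟨∏ J, δ J, ∑ J, C J, Finset.prod_pos fun J _ => h1 J,
    Finset.sum_nonneg fun J _ => h3 J, fun J hJ y x hy hx S hS => ?_⟩
  have h5 := h4 J hJ y x hy hx S hS
  have h6 : ∏ J, δ J ≤ δ J := by
    rw [← Finset.mul_prod_erase Finset.univ δ (Finset.mem_univ J)]
    have : ∏ J ∈ Finset.univ.erase J, δ J ≤ 1 := Finset.prod_le_one (fun J _ => (h1 J).le) fun J _ => h2 J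
    nlinarith [h1 J]
  have h7 : C J ≤ ∑ J, C J := Finset.single_le_sum (fun J _ => h3 J) (Finset.mem_univ J)
  have h8 := ll_monoT99 hy hx
  have h9 : (∏ J, δ J) * (Real.log (Real.log x) - Real.log (Real.log y)) ≤ δ J * (Real.log (Real.log x) - Real.log (Real.log y)) :=
    mul_le_mul_of_nonneg_right h6 (by linarith)
  linarith

private theorem exp_llT99 {X : ℕ} (hX : 3 ≤ X) (a : ℝ) : Real.exp (a * Real.log (Real.log X)) = Real.log X ^ a := by
  rw [Real.rpow_def_of_pos (by linarith [log_ge_one hX]), mul_comm]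

open Classical in
/-- few sets with a large smooth part -/
private theorem exc_ET99 {D : CD k G} {κ : ℝ} (hκ0 : 0 < κ) (hS : SysW D.P D.nm) (hM : MertK D κ) :
    ∃ C : ℝ, 0 < C ∧ ∀ (N A X s : ℕ), 3 ≤ X → (4 : ℝ) ^ N ≤ Real.log X → s + 1 ≤ N → 0 < A →
    ∀ S : Finset (Finset D.P), (∀ c ∈ S, Nm D c ≤ X ∧
      ¬ (∏ p ∈ (pf D c).filter (fun p => D.nm p ≤ zz N X s), D.nm p) ^ A ≤ zz N X (s + 1)) →
    (S.card : ℝ) ≤ 4 * A * C * X * Real.log X ^ (κ - 1 - 1 / (N : ℝ)) := by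
  obtain ⟨C, hC, h⟩ := smoothK99 hκ0 hS hM
  refine ⟨C, hC, fun N A X s hX h4N hκ hA S hSc => ?_⟩
  have hA' : (0 : ℝ) < A := by exact_mod_cast hA
  have hlX := log_ge_one hX
  have hN' : (0 : ℝ) < N := by exact_mod_cast (by omega : 0 < N)
  have hz2 := zz_two (N := N) (κ := s) hX
  have hz3 := zz_two (N := N) (κ := s + 1) hX
  have hlz : 0 < Real.log (zz N X (s + 1)) := Real.log_pos (by exact_mod_cast (by omega : 1 < zz N X (s + 1)))
  have h1 := h (zz N X s) X hz2 (zz_pow4_99 hX hκ h4N) (Real.log (zz N X (s + 1)) / A) (by positivity) S (by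
    intro c hc
    obtain ⟨g1, g2⟩ := hSc c hc
    refine ⟨g1, ?_⟩
    push Not at g2
    have g3 : (zz N X (s + 1) : ℝ) ≤ ((∏ p ∈ (pf D c).filter (fun p => D.nm p ≤ zz N X s), D.nm p : ℕ) : ℝ) ^ A := by exact_mod_cast g2.le
    have g4 := Real.log_le_log (by exact_mod_cast (by omega : 0 < zz N X (s + 1))) g3
    rw [Real.log_pow, Nat.cast_prod, Real.log_prod] at g4
    · rw [div_le_iff₀ hA', mul_comm]
      refine g4.trans (mul_le_mul_of_nonneg_left ?_ hA'.le)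
      refine Finset.sum_le_sum_of_subset_of_nonneg ?_ fun p _ _ => Real.log_nonneg ?_
      · intro p hp
        obtain ⟨k1, k2⟩ := Finset.mem_filter.mp hp
        exact Finset.mem_filter.mpr ⟨(mem_pf.mp k1).1, k2⟩
      · have := hS.two p
        exact_mod_cast (by omega : 1 ≤ D.nm p)
    · intro p _
      have := hS.two p
      exact_mod_cast (by omega : D.nm p ≠ 0))
  refine h1.trans ?_
  have h2 := log_zz_le (N := N) (κ := s) hX (by omega)
  have h3 := le_log_zz (N := N) (κ := s + 1) hX hκ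
  have hp1 : 0 < Real.log X ^ ((s : ℝ) / N) := by positivity
  have hp2 : 0 < Real.log X ^ (((s + 1 : ℕ) : ℝ) / N) := by positivity
  have h4 : Real.log (zz N X s) / (Real.log (zz N X (s + 1)) / A) ≤ 4 * A * Real.log X ^ (-(1 / (N : ℝ))) := by
    have e : Real.log X ^ (-(1 / (N : ℝ))) = Real.log X ^ ((s : ℝ) / N) / Real.log X ^ (((s + 1 : ℕ) : ℝ) / N) := by
      rw [← Real.rpow_sub (by linarith)]
      congr 1
      push_cast
      field_simp
      ring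
    rw [e, div_div_eq_mul_div, div_le_iff₀ hlz]
    have h5 : 4 * (A : ℝ) * (Real.log X ^ ((s : ℝ) / N) / Real.log X ^ (((s + 1 : ℕ) : ℝ) / N)) * (1 / 4 * Real.log X ^ (((s + 1 : ℕ) : ℝ) / N)) ≤
        4 * (A : ℝ) * (Real.log X ^ ((s : ℝ) / N) / Real.log X ^ (((s + 1 : ℕ) : ℝ) / N)) * Real.log (zz N X (s + 1)) :=
      mul_le_mul_of_nonneg_left h3 (by positivity)
    refine le_trans ?_ h5
    calc Real.log (zz N X s) * A ≤ Real.log X ^ ((s : ℝ) / N) * A := mul_le_mul_of_nonneg_right h2 hA'.le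
      _ = _ := by field_simp
  calc C * X * Real.log X ^ (κ - 1) * (Real.log (zz N X s) / (Real.log (zz N X (s + 1)) / A)) ≤
        C * X * Real.log X ^ (κ - 1) * (4 * A * Real.log X ^ (-(1 / (N : ℝ)))) :=
        mul_le_mul_of_nonneg_left h4 (by positivity)
    _ = 4 * A * C * X * (Real.log X ^ (κ - 1) * Real.log X ^ (-(1 / (N : ℝ)))) := by ring
    _ = _ := by rw [← Real.rpow_add (by linarith), ← sub_eq_add_neg]

open Classical in
/-- few sets without primes which have no option in `J` -/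
private theorem exc_FT99 {D : CD k G} {κ : ℝ} (hS : SysW D.P D.nm) (hM : MertK D κ) {δ CA : ℝ} (hδ : 0 < δ)
    (hTA : ∀ J, TA D J → ∀ y x : ℕ, 2 ≤ y → y ≤ x →
    ∀ S : Finset D.P, (∀ p, p ∈ S ↔ p ∉ D.Ex ∧ y < D.nm p ∧ D.nm p ≤ x ∧ ∀ o ∈ D.V p, D.cmp o ∉ J) →
      δ * (Real.log (Real.log x) - Real.log (Real.log y)) - CA ≤ ∑ p ∈ S, (1 : ℝ) / D.nm p) :
    ∃ C : ℝ, 0 < C ∧ ∀ (N X s : ℕ) (J : Finset (Fin k)), 3 ≤ X → s < N → TA D J →
    ∀ S : Finset (Finset D.P), (∀ c ∈ S, Nm D c ≤ X ∧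
      ¬ ∃ p ∈ pf D c, sc (zz N X) N (D.nm p) = s ∧ ∀ o ∈ D.V p, D.cmp o ∉ J) →
    (S.card : ℝ) ≤ C * X * Real.log X ^ (κ - 1 - δ / (N : ℝ)) := by
  obtain ⟨C, hC, h⟩ := hallK99 hS hM
  refine ⟨C * Real.exp (CA + δ * Real.log 4), by positivity, fun N X s J hX hκ hJ S hSc => ?_⟩
  have hlX := log_ge_one hX
  set T := (pr D X).filter (fun p => p ∉ D.Ex ∧ sc (zz N X) N (D.nm p) = s ∧ ∀ o ∈ D.V p, D.cmp o ∉ J) with hT
  set T' := (pr D (zz N X (s + 1))).filter (fun p => p ∉ D.Ex ∧ zz N X s < D.nm p ∧ ∀ o ∈ D.V p, D.cmp o ∉ J) with hT'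
  have hN : 0 < N := by omega
  have h1 := h X (by omega) T (fun p hp => (mem_pr hS).mp (Finset.mem_filter.mp hp).1) S (by
    intro c hc
    obtain ⟨g1, g2⟩ := hSc c hc
    refine ⟨g1, ?_⟩
    rw [Finset.disjoint_left]
    intro p hp hpT
    obtain ⟨_, k1, k2, k3⟩ := Finset.mem_filter.mp hpT
    exact g2 ⟨p, mem_pf.mpr ⟨hp, k1⟩, k2, k3⟩)
  have hsub : T' ⊆ T := by
    intro p hp
    obtain ⟨k0, k1, k2, k3⟩ := Finset.mem_filter.mp hp
    have k4 := (mem_pr hS).mp k0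
    refine Finset.mem_filter.mpr ⟨(mem_pr hS).mpr ?_, k1, ?_, k3⟩
    · rw [← zz_top hN hX]
      exact k4.trans (zz_mono hX (by omega))
    · have k5 : s ≤ sc (zz N X) N (D.nm p) := Nat.le_findGreatest (by omega) k2
      by_contra hne
      have k6 : s + 1 ≤ sc (zz N X) N (D.nm p) := by omega
      have k7 := sc_pos (z := zz N X) (N := N) (p := D.nm p) (by omega)
      have k8 := zz_mono (N := N) hX k6
      omega
  have h2 := hTA J hJ (zz N X s) (zz N X (s + 1)) (zz_two hX) (zz_mono hX (Nat.le_succ s)) T' (by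
    intro p
    rw [hT', Finset.mem_filter, mem_pr hS]
    tauto)
  have h3 : ∑ p ∈ T', (1 : ℝ) / D.nm p ≤ ∑ p ∈ T, (1 : ℝ) / D.nm p :=
    Finset.sum_le_sum_of_subset_of_nonneg hsub fun p _ _ => by positivity
  have h4 := ll_diff' hN hX hκ
  have h5 : δ * (Real.log (Real.log X) / N - Real.log 4) ≤
      δ * (Real.log (Real.log (zz N X (s + 1))) - Real.log (Real.log (zz N X s))) := mul_le_mul_of_nonneg_left h4 hδ.le
  have h6 : Real.exp (-∑ p ∈ T, (1 : ℝ) / D.nm p) ≤ Real.exp (CA + δ * Real.log 4) * Real.log X ^ (-(δ / (N : ℝ))) := by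
    rw [← exp_llT99 hX, ← Real.exp_add]
    refine Real.exp_le_exp.mpr ?_
    have e : -(δ / (N : ℝ)) * Real.log (Real.log X) = -(δ * (Real.log (Real.log X) / N)) := by ring
    rw [e]
    linarith
  calc (S.card : ℝ) ≤ C * X * Real.log X ^ (κ - 1) * Real.exp (-∑ p ∈ T, (1 : ℝ) / D.nm p) := h1
    _ ≤ C * X * Real.log X ^ (κ - 1) * (Real.exp (CA + δ * Real.log 4) * Real.log X ^ (-(δ / (N : ℝ)))) := mul_le_mul_of_nonneg_left h6 (by positivity)
    _ = C * Real.exp (CA + δ * Real.log 4) * X * (Real.log X ^ (κ - 1) * Real.log X ^ (-(δ / (N : ℝ)))) := by ring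
    _ = _ := by rw [← Real.rpow_add (by linarith), ← sub_eq_add_neg]

private theorem rpow_leT99 {X : ℕ} (hX : 3 ≤ X) {a b : ℝ} (h : a ≤ b) : Real.log X ^ a ≤ Real.log X ^ b :=
  Real.rpow_le_rpow_of_exponent_le (log_ge_one hX) h

open Classical in
/-- the counting theorem for the primes of density `κ` -/
theorem countK99t [CommGroup G] (D : CD k G) {κ : ℝ} (hκ0 : 0 < κ) (hb : 0 < b) (hb1 : b ≤ 1) (hS : SysW D.P D.nm) (hM : MertK D κ)
    (hV : ∃ K : ℕ, ∀ p, (D.V p).card ≤ K) {Ok : Finset D.P → Prop} (hOk : ∀ m c, m ⊆ c → Ok c → Ok m) (hBT : BTb D b Ok) (hTAB : ∀ J : Finset (Fin k), TA D J ∨ TBKt D b κ J) :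
    ∃ η C : ℝ, 0 < η ∧ 0 < C ∧ ∀ X : ℕ, 3 ≤ X → ∀ S : Finset (Finset D.P),
      (∀ c ∈ S, Nm D c ≤ X ∧ Ok c ∧ Bad D c) → (S.card : ℝ) ≤ C * X * Real.log X ^ (κ - 1 - η) := by
  obtain ⟨K₀, hV⟩ := hV
  obtain ⟨δB, CB, hδB, hδB1, hδB2, hCB, hTB⟩ := unif_BT99 D hκ0
  obtain ⟨δA, CA, hδA, hCA, hTA⟩ := unif_AT99 D
  obtain ⟨CM', hMe'⟩ := id hM
  obtain ⟨CM, hCM, hMe⟩ : ∃ CM : ℝ, 0 ≤ CM ∧ ∀ y x : ℕ, 2 ≤ y → y ≤ x → ∀ S : Finset D.P, (∀ p ∈ S, y < D.nm p ∧ D.nm p ≤ x) →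
      ∑ p ∈ S, (1 : ℝ) / D.nm p ≤ κ * (Real.log (Real.log x) - Real.log (Real.log y)) + CM :=
    ⟨|CM'|, abs_nonneg _, fun y x hy hx S h => (hMe' y x hy hx S h).trans (by linarith [le_abs_self CM'])⟩
  -- parameters
  obtain ⟨e, he⟩ : ∃ e : ℝ, e = δB / (4 * (k + 1)) := ⟨_, rfl⟩
  have hk1 : (0 : ℝ) < (k : ℝ) + 1 := by positivity
  have he0 : 0 < e := by
    rw [he]
    positivity
  have hek : (k + 1) * e = δB / 4 := by
    rw [he]
    field_simp
  have he1 : e ≤ 1 := by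
    have h1 : 1 * e ≤ (k + 1) * e := mul_le_mul_of_nonneg_right (by linarith [(Nat.cast_nonneg k : (0 : ℝ) ≤ k)]) he0.le
    linarith
  obtain ⟨C, A', hC, hBT'⟩ := hBT e he0
  obtain ⟨A, hA⟩ : ∃ A : ℕ, A = A' + 1 := ⟨_, rfl⟩
  have hBTc : BTc D b Ok e C A := by
    intro j m hm hOm τ hτ t h h2 hmA T hT
    refine hBT' j m hm hOm τ hτ t h h2 (le_trans ?_ hmA) T hT
    exact Nat.pow_le_pow_right (Nm_pos hS m) (by omega)
  obtain ⟨N, hN'⟩ := exists_nat_gt (4 * (1 + 2 * k * (K₀ * κ)) / δB)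
  have hN1 : 4 * (1 + 2 * (k : ℝ) * (K₀ * κ)) < δB * N := by
    rw [div_lt_iff₀ hδB] at hN'
    linarith
  have hNpos : (0 : ℝ) < N := lt_of_le_of_lt (by positivity) hN'
  have hN2 : 2 ≤ N := by
    by_contra hlt
    have h1 : (N : ℝ) ≤ 1 := by exact_mod_cast (by omega : N ≤ 1)
    have h2 : 0 ≤ 2 * (k : ℝ) * (K₀ * κ) := by positivity
    nlinarith
  have hNfrac : (1 + 2 * (k : ℝ) * (K₀ * κ)) / N ≤ δB / 4 := by
    rw [div_le_iff₀ hNpos]
    linarith
  obtain ⟨C₀, hC₀, hcnt⟩ := countK_le99 hS hM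
  obtain ⟨C₁, hC₁, hE⟩ := exc_ET99 hκ0 hS hM
  obtain ⟨C₂, hC₂, hF⟩ := exc_FT99 hS hM hδA hTA
  obtain ⟨B₀, hB₀⟩ : ∃ B₀ : ℝ, B₀ = D.Ex.card + K₀ * (pr D 2).card + N * (((κ - δB) * Real.log 4 + CB) + K₀ * (κ * Real.log 4 + CM)) := ⟨_, rfl⟩
  obtain ⟨C₃, hC₃⟩ : ∃ C₃ : ℝ, C₃ = (N + 1) ^ k * (K₀ * C * (1 + 16 / e * (K₀ * C)) ^ k * 4 * Real.exp B₀) := ⟨_, rfl⟩
  have hC₃0 : 0 ≤ C₃ := by
    rw [hC₃]
    positivity
  obtain ⟨η, hη⟩ : ∃ η : ℝ, η = min (1 / (N : ℝ)) (min (δA / N) (δB / 2)) := ⟨_, rfl⟩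
  have hη0 : 0 < η := by
    rw [hη]
    exact lt_min (by positivity) (lt_min (by positivity) (by positivity))
  have hη1 : η ≤ 1 := by
    rw [hη]
    refine (min_le_left _ _).trans ?_
    rw [div_le_one hNpos]
    exact_mod_cast (by omega : 1 ≤ N)
  refine ⟨η, C₀ * 4 ^ N + ((N : ℝ) * (4 * A * C₁) + (N : ℝ) * (Fintype.card (Finset (Fin k)) * C₂) + C₃ + 1), hη0, by positivity, fun X hX S hSc => ?_⟩
  have hX0 : (0 : ℝ) < X := by exact_mod_cast (by omega : 0 < X)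
  have hlX := log_ge_one hX
  have hLp : 0 < Real.log X := by linarith
  have r0 : 0 < Real.log X ^ (κ - 1 - η) := Real.rpow_pos_of_pos hLp _
  have hR0 : 0 ≤ (N : ℝ) * (4 * A * C₁) + (N : ℝ) * (Fintype.card (Finset (Fin k)) * C₂) + C₃ + 1 := by positivity
  rcases lt_or_ge (Real.log X) ((4 : ℝ) ^ N) with hsmall | hlarge
  · -- small `X`
    have h1 := hcnt X (by omega) S fun c hc => (hSc c hc).1
    have h2 : Real.log X ^ (κ - 1) ≤ 4 ^ N * Real.log X ^ (κ - 1 - η) := by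
      have e1 : Real.log X ^ (κ - 1) = Real.log X ^ η * Real.log X ^ (κ - 1 - η) := by
        rw [← Real.rpow_add hLp]
        congr 1
        ring
      rw [e1]
      refine mul_le_mul_of_nonneg_right ?_ r0.le
      calc Real.log X ^ η ≤ Real.log X ^ (1 : ℝ) := rpow_leT99 hX hη1
        _ = Real.log X := Real.rpow_one _
        _ ≤ _ := hsmall.le
    calc (S.card : ℝ) ≤ C₀ * X * Real.log X ^ (κ - 1) := h1
      _ ≤ C₀ * X * (4 ^ N * Real.log X ^ (κ - 1 - η)) := mul_le_mul_of_nonneg_left h2 (by positivity)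
      _ = C₀ * 4 ^ N * X * Real.log X ^ (κ - 1 - η) := by ring
      _ ≤ _ := by
        refine mul_le_mul_of_nonneg_right (mul_le_mul_of_nonneg_right ?_ hX0.le) r0.le
        linarith
  set z := zz N X with hz
  -- the exceptional sets
  let SE : ℕ → Finset (Finset D.P) := fun s => S.filter fun c =>
    ¬ (∏ p ∈ (pf D c).filter (fun p => D.nm p ≤ z s), D.nm p) ^ A ≤ z (s + 1)
  let SF : ℕ → Finset (Fin k) → Finset (Finset D.P) := fun s J => S.filter fun c =>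
    ¬ TBKt D b κ J ∧ ¬ ∃ p ∈ pf D c, sc z N (D.nm p) = s ∧ ∀ o ∈ D.V p, D.cmp o ∉ J
  set S' := S.filter fun c =>
      (∀ s < N, ∀ J, ¬ TBKt D b κ J → ∃ p ∈ pf D c, sc z N (D.nm p) = s ∧ ∀ o ∈ D.V p, D.cmp o ∉ J) ∧
      (∀ s, 1 ≤ s → s + 1 ≤ N - 1 → (∏ p ∈ (pf D c).filter (fun p => D.nm p ≤ z s), D.nm p) ^ A ≤ z (s + 1)) with hS'
  have hcov : S ⊆ ((Finset.range (N - 1)).biUnion SE ∪ (Finset.range N).biUnion fun s => Finset.univ.biUnion fun J => SF s J) ∪ S' := by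
    intro c hc
    by_cases g1 : ∀ s < N, ∀ J, ¬ TBKt D b κ J → ∃ p ∈ pf D c, sc z N (D.nm p) = s ∧ ∀ o ∈ D.V p, D.cmp o ∉ J
    · by_cases g2 : ∀ s, 1 ≤ s → s + 1 ≤ N - 1 → (∏ p ∈ (pf D c).filter (fun p => D.nm p ≤ z s), D.nm p) ^ A ≤ z (s + 1)
      · exact Finset.mem_union_right _ (Finset.mem_filter.mpr ⟨hc, g1, g2⟩)
      · simp only [not_forall] at g2
        obtain ⟨s, h1, h2, h3⟩ := g2
        refine Finset.mem_union_left _ (Finset.mem_union_left _ (Finset.mem_biUnion.mpr ⟨s, Finset.mem_range.mpr (by omega), ?_⟩))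
        exact Finset.mem_filter.mpr ⟨hc, h3⟩
    · simp only [not_forall] at g1
      obtain ⟨s, h1, J, h2, h3⟩ := g1
      refine Finset.mem_union_left _ (Finset.mem_union_right _ (Finset.mem_biUnion.mpr ⟨s, Finset.mem_range.mpr h1,
        Finset.mem_biUnion.mpr ⟨J, Finset.mem_univ _, ?_⟩⟩))
      exact Finset.mem_filter.mpr ⟨hc, h2, h3⟩
  have hcard : (S.card : ℝ) ≤ (∑ s ∈ Finset.range (N - 1), ((SE s).card : ℝ)) +
      (∑ s ∈ Finset.range N, ∑ J : Finset (Fin k), ((SF s J).card : ℝ)) + S'.card := by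
    have g1 := Finset.card_le_card hcov
    have g2 := (Finset.card_union_le ((Finset.range (N - 1)).biUnion SE ∪ (Finset.range N).biUnion fun s => Finset.univ.biUnion fun J => SF s J) S')
    have g3 := (Finset.card_union_le ((Finset.range (N - 1)).biUnion SE) ((Finset.range N).biUnion fun s => Finset.univ.biUnion fun J => SF s J))
    have g4 := Finset.card_biUnion_le (s := Finset.range (N - 1)) (t := SE)
    have g5 : ((Finset.range N).biUnion fun s => Finset.univ.biUnion fun J => SF s J).card ≤ ∑ s ∈ Finset.range N, ∑ J : Finset (Fin k), (SF s J).card :=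
      Finset.card_biUnion_le.trans (Finset.sum_le_sum fun s _ => Finset.card_biUnion_le)
    have g6 : S.card ≤ (∑ s ∈ Finset.range (N - 1), (SE s).card) + (∑ s ∈ Finset.range N, ∑ J : Finset (Fin k), (SF s J).card) + S'.card := by omega
    exact_mod_cast g6
  have b1 : ∑ s ∈ Finset.range (N - 1), ((SE s).card : ℝ) ≤ X * ((N : ℝ) * (4 * A * C₁) * Real.log X ^ (κ - 1 - 1 / (N : ℝ))) := by
    have g : ∀ s ∈ Finset.range (N - 1), ((SE s).card : ℝ) ≤ 4 * A * C₁ * X * Real.log X ^ (κ - 1 - 1 / (N : ℝ)) := by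
      intro s hs
      have hs' := Finset.mem_range.mp hs
      refine hE N A X s hX hlarge (by omega) (by omega) (SE s) fun c hc => ?_
      obtain ⟨g1, g2⟩ := Finset.mem_filter.mp hc
      exact ⟨(hSc c g1).1, g2⟩
    refine (Finset.sum_le_sum g).trans ?_
    rw [Finset.sum_const, Finset.card_range, nsmul_eq_mul]
    have h1 : ((N - 1 : ℕ) : ℝ) ≤ N := by exact_mod_cast Nat.sub_le N 1
    calc ((N - 1 : ℕ) : ℝ) * (4 * A * C₁ * X * Real.log X ^ (κ - 1 - 1 / (N : ℝ))) ≤ N * (4 * A * C₁ * X * Real.log X ^ (κ - 1 - 1 / (N : ℝ))) :=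
          mul_le_mul_of_nonneg_right h1 (by positivity)
      _ = _ := by ring
  have b2 : ∑ s ∈ Finset.range N, ∑ J : Finset (Fin k), ((SF s J).card : ℝ) ≤
      X * ((N : ℝ) * (Fintype.card (Finset (Fin k)) * C₂) * Real.log X ^ (κ - 1 - δA / (N : ℝ))) := by
    have g : ∀ s ∈ Finset.range N, ∀ J ∈ (Finset.univ : Finset (Finset (Fin k))), ((SF s J).card : ℝ) ≤ C₂ * X * Real.log X ^ (κ - 1 - δA / (N : ℝ)) := by
      intro s hs J _
      by_cases hJ : TBKt D b κ J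
      · have : SF s J = ∅ := by
          rw [Finset.eq_empty_iff_forall_notMem]
          intro c hc
          exact (Finset.mem_filter.mp hc).2.1 hJ
        rw [this]
        simp only [Finset.card_empty, Nat.cast_zero]
        positivity
      · have hJA : TA D J := (hTAB J).resolve_right hJ
        refine hF N X s J hX (Finset.mem_range.mp hs) hJA (SF s J) fun c hc => ?_
        obtain ⟨g1, g2⟩ := Finset.mem_filter.mp hc
        exact ⟨(hSc c g1).1, g2.2⟩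
    refine (Finset.sum_le_sum fun s hs => Finset.sum_le_sum (g s hs)).trans (le_of_eq ?_)
    rw [Finset.sum_const, Finset.sum_const, Finset.card_range, Finset.card_univ, nsmul_eq_mul, nsmul_eq_mul]
    ring
  have b3 : (S'.card : ℝ) ≤ X * (C₃ * Real.log X ^ (κ - 1 - δB / 2)) := by
    have g1 := main_countT hb hS hOk hC he0 he1 hBTc (z := z) hN2 (zz_two hX) hX hV (PB := TBKt D b κ)
      (fun J hJ => hJ.1) S' (by
      intro c hc
      obtain ⟨k1, k2, k3⟩ := Finset.mem_filter.mp hc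
      exact ⟨(hSc c k1).1, (hSc c k1).2.1, (hSc c k1).2.2, k2, k3⟩)
      (B := K₀ * (pr D 2).card + N * (((κ - δB) * Real.log 4 + CB) + K₀ * (κ * Real.log 4 + CM)) +
        ((κ - δB) + 2 * k * (K₀ * κ) / N) * Real.log (Real.log X)) (by
        intro K _ hK
        exact sa_sumT hb hb1 hS hV (lam := κ - δB) (κM := κ) (by linarith) hκ0.le hCB hCM hTB hMe
          (by omega : 0 < N) hX K hK)
    refine g1.trans ?_
    have e0 : (D.Ex.card : ℝ) + (K₀ * (pr D 2).card + N * (((κ - δB) * Real.log 4 + CB) + K₀ * (κ * Real.log 4 + CM)) +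
        ((κ - δB) + 2 * k * (K₀ * κ) / N) * Real.log (Real.log X)) =
        B₀ + ((κ - δB) + 2 * k * (K₀ * κ) / N) * Real.log (Real.log X) := by
      rw [hB₀]
      ring
    rw [e0]
    unfold EE
    rw [Real.exp_add, exp_llT99 hX, mul_pow, ← Real.rpow_natCast (Real.log X ^ e) k, ← Real.rpow_mul (by linarith)]
    have g2 : 1 / 4 * Real.log X ^ ((((N - 1 : ℕ) : ℝ) / N) * (1 - e)) ≤ Real.log (z (N - 1)) ^ (1 - e) := by
      have k1 := le_log_zz (N := N) (κ := N - 1) hX (Nat.sub_le N 1)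
      have k2 : (1 / 4 * Real.log X ^ (((N - 1 : ℕ) : ℝ) / N)) ^ (1 - e) ≤ Real.log (z (N - 1)) ^ (1 - e) :=
        Real.rpow_le_rpow (by positivity) k1 (by linarith)
      rw [Real.mul_rpow (by norm_num) (by positivity), ← Real.rpow_mul hLp.le] at k2
      refine le_trans (mul_le_mul_of_nonneg_right ?_ (by positivity)) k2
      calc (1 / 4 : ℝ) = (1 / 4 : ℝ) ^ (1 : ℝ) := (Real.rpow_one _).symm
        _ ≤ (1 / 4 : ℝ) ^ (1 - e) := Real.rpow_le_rpow_of_exponent_ge (by norm_num) (by norm_num) (by linarith)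
    have g3 : 0 < Real.log X ^ ((((N - 1 : ℕ) : ℝ) / N) * (1 - e)) := by positivity
    have g4 : K₀ * C * ((1 + 16 / e * (K₀ * C)) ^ k * Real.log X ^ (e * k)) / Real.log (z (N - 1)) ^ (1 - e) ≤
        K₀ * C * ((1 + 16 / e * (K₀ * C)) ^ k * Real.log X ^ (e * k)) / (1 / 4 * Real.log X ^ ((((N - 1 : ℕ) : ℝ) / N) * (1 - e))) :=
      div_le_div_of_nonneg_left (by positivity) (by positivity) g2
    have g5 : Real.log X ^ (e * k) / Real.log X ^ ((((N - 1 : ℕ) : ℝ) / N) * (1 - e)) * Real.log X ^ ((κ - δB) + 2 * k * (K₀ * κ) / N) ≤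
        Real.log X ^ (κ - 1 - δB / 2) := by
      rw [← Real.rpow_sub hLp, ← Real.rpow_add hLp]
      refine Real.rpow_le_rpow_of_exponent_le hlX ?_
      have k1 : ((N - 1 : ℕ) : ℝ) / N = 1 - 1 / N := by
        rw [Nat.cast_sub (by omega)]
        field_simp
        push_cast
        ring
      rw [k1]
      have k2 : (1 + 2 * (k : ℝ) * (K₀ * κ)) / N = 1 / N + 2 * k * (K₀ * κ) / N := by ring
      have k3 : 0 ≤ 1 / (N : ℝ) * e := by positivity
      have k4 : (1 - 1 / (N : ℝ)) * (1 - e) = 1 - 1 / N - e + 1 / N * e := by ring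
      rw [k4]
      have k5 : e * k + e = δB / 4 := by
        rw [← hek]
        ring
      linarith
    rw [hC₃]
    calc (N + 1 : ℝ) ^ k * (K₀ * C * ((1 + 16 / e * (K₀ * C)) ^ k * Real.log X ^ (e * k)) / Real.log (z (N - 1)) ^ (1 - e) * X *
          (Real.exp B₀ * Real.log X ^ ((κ - δB) + 2 * k * (K₀ * κ) / N)))
        ≤ (N + 1 : ℝ) ^ k * (K₀ * C * ((1 + 16 / e * (K₀ * C)) ^ k * Real.log X ^ (e * k)) / (1 / 4 * Real.log X ^ ((((N - 1 : ℕ) : ℝ) / N) * (1 - e))) * X *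
          (Real.exp B₀ * Real.log X ^ ((κ - δB) + 2 * k * (K₀ * κ) / N))) := by
          refine mul_le_mul_of_nonneg_left ?_ (by positivity)
          refine mul_le_mul_of_nonneg_right ?_ (by positivity)
          exact mul_le_mul_of_nonneg_right g4 hX0.le
      _ = (N + 1 : ℝ) ^ k * (K₀ * C * (1 + 16 / e * (K₀ * C)) ^ k * 4 * Real.exp B₀) * X *
          (Real.log X ^ (e * k) / Real.log X ^ ((((N - 1 : ℕ) : ℝ) / N) * (1 - e)) * Real.log X ^ ((κ - δB) + 2 * k * (K₀ * κ) / N)) := by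
          field_simp
      _ ≤ (N + 1 : ℝ) ^ k * (K₀ * C * (1 + 16 / e * (K₀ * C)) ^ k * 4 * Real.exp B₀) * X * Real.log X ^ (κ - 1 - δB / 2) :=
          mul_le_mul_of_nonneg_left g5 (by positivity)
      _ = _ := by ring
  have r1 : Real.log X ^ (κ - 1 - 1 / (N : ℝ)) ≤ Real.log X ^ (κ - 1 - η) := rpow_leT99 hX (by
    have : η ≤ 1 / (N : ℝ) := by rw [hη]; exact min_le_left _ _
    linarith)
  have r2 : Real.log X ^ (κ - 1 - δA / (N : ℝ)) ≤ Real.log X ^ (κ - 1 - η) := rpow_leT99 hX (by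
    have : η ≤ δA / (N : ℝ) := by rw [hη]; exact (min_le_right _ _).trans (min_le_left _ _)
    linarith)
  have r3 : Real.log X ^ (κ - 1 - δB / 2) ≤ Real.log X ^ (κ - 1 - η) := rpow_leT99 hX (by
    have : η ≤ δB / 2 := by rw [hη]; exact (min_le_right _ _).trans (min_le_right _ _)
    linarith)
  have s1 : (N : ℝ) * (4 * A * C₁) * Real.log X ^ (κ - 1 - 1 / (N : ℝ)) ≤ (N : ℝ) * (4 * A * C₁) * Real.log X ^ (κ - 1 - η) :=
    mul_le_mul_of_nonneg_left r1 (by positivity)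
  have s2 : (N : ℝ) * (Fintype.card (Finset (Fin k)) * C₂) * Real.log X ^ (κ - 1 - δA / (N : ℝ)) ≤
      (N : ℝ) * (Fintype.card (Finset (Fin k)) * C₂) * Real.log X ^ (κ - 1 - η) := mul_le_mul_of_nonneg_left r2 (by positivity)
  have s3 : C₃ * Real.log X ^ (κ - 1 - δB / 2) ≤ C₃ * Real.log X ^ (κ - 1 - η) := mul_le_mul_of_nonneg_left r3 hC₃0
  have s5 : 0 ≤ C₀ * 4 ^ N * Real.log X ^ (κ - 1 - η) := by positivity
  have s4 : (N : ℝ) * (4 * A * C₁) * Real.log X ^ (κ - 1 - 1 / (N : ℝ)) +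
      (N : ℝ) * (Fintype.card (Finset (Fin k)) * C₂) * Real.log X ^ (κ - 1 - δA / (N : ℝ)) + C₃ * Real.log X ^ (κ - 1 - δB / 2) ≤
      (C₀ * 4 ^ N + ((N : ℝ) * (4 * A * C₁) + (N : ℝ) * (Fintype.card (Finset (Fin k)) * C₂) + C₃ + 1)) * Real.log X ^ (κ - 1 - η) := by
    have e : (C₀ * 4 ^ N + ((N : ℝ) * (4 * A * C₁) + (N : ℝ) * (Fintype.card (Finset (Fin k)) * C₂) + C₃ + 1)) * Real.log X ^ (κ - 1 - η) =
      C₀ * 4 ^ N * Real.log X ^ (κ - 1 - η) + ((N : ℝ) * (4 * A * C₁) * Real.log X ^ (κ - 1 - η) +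
        (N : ℝ) * (Fintype.card (Finset (Fin k)) * C₂) * Real.log X ^ (κ - 1 - η) +
        C₃ * Real.log X ^ (κ - 1 - η) + Real.log X ^ (κ - 1 - η)) := by ring
    rw [e]
    linarith
  calc (S.card : ℝ) ≤ X * ((N : ℝ) * (4 * A * C₁) * Real.log X ^ (κ - 1 - 1 / (N : ℝ))) +
        X * ((N : ℝ) * (Fintype.card (Finset (Fin k)) * C₂) * Real.log X ^ (κ - 1 - δA / (N : ℝ))) + X * (C₃ * Real.log X ^ (κ - 1 - δB / 2)) := by linarith
    _ = X * ((N : ℝ) * (4 * A * C₁) * Real.log X ^ (κ - 1 - 1 / (N : ℝ)) +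
        (N : ℝ) * (Fintype.card (Finset (Fin k)) * C₂) * Real.log X ^ (κ - 1 - δA / (N : ℝ)) + C₃ * Real.log X ^ (κ - 1 - δB / 2)) := by ring
    _ ≤ X * ((C₀ * 4 ^ N + ((N : ℝ) * (4 * A * C₁) + (N : ℝ) * (Fintype.card (Finset (Fin k)) * C₂) + C₃ + 1)) * Real.log X ^ (κ - 1 - η)) :=
        mul_le_mul_of_nonneg_left s4 hX0.le
    _ = _ := by ring

section res

variable {D : CD k G} {R : Set D.P}

theorem WJbt_res (J : Finset (Fin k)) (t : Fin k → D.ι → G) (p : (res D R).P) :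
    WJbt (res D R) b J t p = WJbt D b J t p.1 := rfl

theorem TBt_res [CommGroup G] {κ : ℝ} {J : Finset (Fin k)} (h : TBRbt D b R κ J) :
    TBKt (res D R) b κ J := by
  classical
  obtain ⟨hJ, δ, C, hδ, h⟩ := h
  refine ⟨hJ, δ, C, hδ, fun y x hy hx t S hS => ?_⟩
  obtain ⟨t', ht'⟩ : ∃ t' : D.P → Fin k → D.ι → G, ∀ p : (res D R).P, t' p.1 = t p :=
    ⟨fun p => if h : p ∈ R ∨ p ∈ D.Ex then t ⟨p, h⟩ else fun _ _ => 1, fun p => dif_pos p.2⟩
  have h1 := h y x hy hx t' (up S) (by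
    intro p
    rw [mem_up]
    constructor
    · rintro ⟨g1, g2⟩
      obtain ⟨k1, k2, k3⟩ := (hS _).mp g2
      have k5 : p ∉ D.Ex := fun g => k1 (mem_Ex_res.mpr g)
      exact ⟨g1.resolve_right k5, k5, k2, k3⟩
    · rintro ⟨g1, g2, g3, g4⟩
      exact ⟨Or.inl g1, (hS _).mpr ⟨fun g => g2 (mem_Ex_res.mp g), g3, g4⟩⟩)
  rw [sum_up fun p => WJbt D b J (t' p) p / D.nm p] at h1
  refine le_trans (le_of_eq (Finset.sum_congr rfl fun p _ => ?_)) h1
  rw [WJbt_res, ht']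
  rfl

end res

open Classical in
/-- the counting theorem -/
theorem countLT : Pool.Agent.MLT.StmtCountLT := by
  intro k G _ D b hb hb1 Ok hOk R κ hκ0 hS hV hBT hTAB
  -- the trivial case
  by_cases hO : Nonempty D.O
  swap
  · refine ⟨1, 4, one_pos, by norm_num, fun X hX S hSc => ?_⟩
    have hsub : S ⊆ {∅} := by
      intro c hc
      obtain ⟨τ, _⟩ := (hSc c hc).2.2.2
      rw [Finset.mem_singleton, Finset.eq_empty_iff_forall_notMem]
      intro p _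
      exact hO ⟨τ p⟩
    have h1 : S.card ≤ 1 := by
      have := Finset.card_le_card hsub
      simpa using this
    have h2 : (S.card : ℝ) ≤ 1 := by exact_mod_cast h1
    have h3 := log_ge_one hX
    have hX0 : (0 : ℝ) < X := by exact_mod_cast (by omega : 0 < X)
    have h4 : Real.log X ^ 2 ≤ 4 * X := by
      have g1 := Real.log_le_sub_one_of_pos (Real.sqrt_pos.mpr hX0)
      rw [Real.log_sqrt hX0.le] at g1
      have g2 := Real.sq_sqrt hX0.le
      have g3 : Real.log X ≤ 2 * Real.sqrt X := by linarith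
      nlinarith [Real.sqrt_nonneg (X : ℝ)]
    have h5 : Real.log X ^ (-2 : ℝ) ≤ Real.log X ^ (κ - 1 - 1) := rpow_leT99 hX (by linarith)
    have h6 : Real.log X ^ (-2 : ℝ) = (Real.log X ^ 2)⁻¹ := by
      rw [Real.rpow_neg (by linarith)]
      norm_num
    have h7 : 1 ≤ 4 * X * Real.log X ^ (-2 : ℝ) := by
      rw [h6, ← div_eq_mul_inv, le_div_iff₀ (by positivity), one_mul]
      exact h4
    calc (S.card : ℝ) ≤ 4 * X * Real.log X ^ (-2 : ℝ) := h2.trans h7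
      _ ≤ _ := mul_le_mul_of_nonneg_left h5 (by positivity)
  obtain ⟨o₀⟩ := hO
  obtain ⟨h1, h2⟩ := sys_res hS
  obtain ⟨K, hK⟩ := hV
  obtain ⟨η, C, hη, hC, h⟩ := countK99t (res D R) hκ0 hb hb1 h1 h2 ⟨K, fun p => hK p.1⟩
    (Ok := fun m => Ok (up m)) (fun m c hmc hc => hOk _ _ (up_mono hmc) hc) (BT_res o₀ hBT)
    (fun J => (hTAB J).imp TA_res TBt_res)
  refine ⟨η, C, hη, hC, fun X hX S hSc => ?_⟩
  set f : Finset D.P → Finset (res D R).P := fun c => c.subtype (fun p => p ∈ R ∨ p ∈ D.Ex) with hf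
  have hup : ∀ c ∈ S, up (f c) = c := by
    intro c hc
    ext p
    rw [mem_up]
    constructor
    · rintro ⟨g1, g2⟩
      exact Finset.mem_subtype.mp g2
    · intro hp
      have g1 : p ∈ R ∨ p ∈ D.Ex := by
        by_cases g : p ∈ D.Ex
        · exact Or.inr g
        · exact Or.inl ((hSc c hc).2.1 p (mem_pf.mpr ⟨hp, g⟩))
      exact ⟨g1, Finset.mem_subtype.mpr hp⟩
  have hcard : S.card = (S.image f).card := by
    rw [Finset.card_image_of_injOn]
    intro c hc c' hc' e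
    rw [← hup c hc, ← hup c' hc']
    exact congrArg up e
  rw [hcard]
  refine h X hX (S.image f) fun c' hc' => ?_
  obtain ⟨c, hc, rfl⟩ := Finset.mem_image.mp hc'
  obtain ⟨g1, g2, g4, g3⟩ := hSc c hc
  rw [← hup c hc] at g1 g3 g4
  rw [Nm_up] at g1
  exact ⟨g1, g4, Bad_res g3⟩

end Pool.Agent.MLT99
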