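import Pool.Agent.Helper37.TW.Top
import Pool.Agent.Helper99.MP.CountL

/-!
# Project MLT (MP_e66f84_ag), block CLT: configurations, the recursion over the scales, base `β`

The recursion of `TW37` with base `β` for the conditions and with the sets of primes restricted to
the admissible ones.
-/

set_option autoImplicit false
set_option maxHeartbeats 1000000

namespace Pool.Agent.MLT99

open Filter Topology
open Pool.Agent.Helper99.HG (CD pf Nm pr Js sc sc_lt sc_le sc_pos mem_pf tuple recip)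
open Pool.Agent.Helper99.ML (SysW mem_pr nm_le_Nm Nm_pos BTc)
open Pool.Agent.TW37 (Cfg NmA TT IsSp Adm lowA lowQ pre mid fib_sum lowA_lowA lowQ_lowQ pre_mid
  mid_pre atoms TT_pre IsSp_low nb nb_succ EE EE_ge_one)

variable {k : ℕ} {G : Type} {β : ℝ}

/-- `b` is possible as special prime of the component `j`, in an admissible set -/
def IsSpo [CommGroup G] (D : CD k G) (Ok : Finset D.P → Prop) (z : ℕ → ℕ) (N X : ℕ)
    (K : Fin k → ℕ) (e : Finset (D.P × D.O)) (j : Fin k) (b : D.P × D.O) : Prop :=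
  IsSp D z N X K e j b ∧ ∃ m' : Finset D.P, Ok m' ∧ b.1 ∈ m' ∧ ∀ a ∈ e, a.1 ∈ m'

/-- the condition on a configuration -/
structure Admo [CommGroup G] (D : CD k G) (Ok : Finset D.P → Prop) (z : ℕ → ℕ) (N A X : ℕ)
    (K : Fin k → ℕ) (ω : Cfg D) : Prop where
  adm : Adm D z N A X K ω
  ok : ∃ m' : Finset D.P, Ok m' ∧ (∀ a ∈ ω.2.1, a.1 ∈ m') ∧ ∀ j, ∀ b ∈ ω.2.2 j, b.1 ∈ m'

theorem Admo.q1 [CommGroup G] {D : CD k G} {Ok : Finset D.P → Prop} {z : ℕ → ℕ} {N A X : ℕ}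
    {K : Fin k → ℕ} {ω : Cfg D} (hω : Admo D Ok z N A X K ω) (j : Fin k) (h0 : K j ≠ 0)
    (hN : K j ≤ N) : ∃ b, ω.2.2 j = {b} ∧ IsSpo D Ok z N X K ω.2.1 j b := by
  obtain ⟨b, h1, h2⟩ := hω.adm.q1 j h0 hN
  obtain ⟨m', h3, h4, h5⟩ := hω.ok
  exact ⟨b, h1, h2, m', h3, h5 j b (by rw [h1]; exact Finset.mem_singleton_self b), h4⟩

/-- the weight of an ordinary prime at the scale `κ` -/
noncomputable def vA (β : ℝ) (D : CD k G) (z : ℕ → ℕ) (N : ℕ) (K : Fin k → ℕ) (κ : ℕ) (a : D.P × D.O) : ℝ :=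
  β ^ (∑ j ∈ Finset.univ.filter (fun j => κ < K j ∧ sc z N (D.nm a.1) + 3 ≤ K j),
    (D.I a.1 a.2 j).card) / D.nm a.1

/-- the weight of a configuration at the scale `κ` -/
noncomputable def VC (β : ℝ) (D : CD k G) (z : ℕ → ℕ) (N : ℕ) (K : Fin k → ℕ) (κ : ℕ) (ω : Cfg D) : ℝ :=
  1 / (Nm D ω.1) * (∏ a ∈ ω.2.1, vA β D z N K κ a) * ∏ j, (1 : ℝ) / NmA D (ω.2.2 j)

/-- the weight of the conditions for the special prime of the component `j` -/
noncomputable def wS (β : ℝ) (D : CD k G) (z : ℕ → ℕ) (N : ℕ) (K : Fin k → ℕ) (e : Finset (D.P × D.O))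
    (j : Fin k) : ℝ :=
  ∏ a ∈ e.filter (fun a => sc z N (D.nm a.1) + 3 ≤ K j), β ^ (D.I a.1 a.2 j).card

theorem wS_pos (hβ : 0 < β) (D : CD k G) (z : ℕ → ℕ) (N : ℕ) (K : Fin k → ℕ) (e : Finset (D.P × D.O))
    (j : Fin k) : 0 < wS β D z N K e j := Finset.prod_pos fun a _ => by positivity

theorem vA_nonneg (hβ : 0 < β) (D : CD k G) (z : ℕ → ℕ) (N : ℕ) (K : Fin k → ℕ) (κ : ℕ) (a : D.P × D.O) :
    0 ≤ vA β D z N K κ a := by
  unfold vA
  positivity

theorem prod_vA_nonneg (hβ : 0 < β) (D : CD k G) (z : ℕ → ℕ) (N : ℕ) (K : Fin k → ℕ) (κ : ℕ)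
    (s : Finset (D.P × D.O)) : 0 ≤ ∏ a ∈ s, vA β D z N K κ a :=
  Finset.prod_nonneg fun a _ => vA_nonneg hβ D z N K κ a

theorem VC_nonneg (hβ : 0 < β) (D : CD k G) (z : ℕ → ℕ) (N : ℕ) (K : Fin k → ℕ) (κ : ℕ) (ω : Cfg D) :
    0 ≤ VC β D z N K κ ω := by
  unfold VC
  have h1 : 0 ≤ ∏ a ∈ ω.2.1, vA β D z N K κ a := prod_vA_nonneg hβ D z N K κ _
  have h2 : 0 ≤ ∏ j, (1 : ℝ) / NmA D (ω.2.2 j) := Finset.prod_nonneg fun j _ => by positivity
  positivity

theorem NmA_pos {D : CD k G} (hS : SysW D.P D.nm) (s : Finset (D.P × D.O)) : 0 < NmA D s :=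
  Finset.prod_pos fun a _ => by
    have := hS.two a.1
    omega
open Classical in
theorem mem_atoms {D : CD k G} (hS : SysW D.P D.nm) {X : ℕ} {a : D.P × D.O} :
    a ∈ atoms D X ↔ D.nm a.1 ≤ X ∧ a.2 ∈ D.V a.1 := by
  unfold atoms
  rw [Finset.mem_biUnion]
  constructor
  · rintro ⟨p, hp, ha⟩
    obtain ⟨o, ho, rfl⟩ := Finset.mem_image.mp ha
    exact ⟨(mem_pr hS).mp hp, ho⟩
  · rintro ⟨h1, h2⟩
    exact ⟨a.1, (mem_pr hS).mpr h1, Finset.mem_image.mpr ⟨a.2, h2, rfl⟩⟩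
section stA

variable [CommGroup G] {D : CD k G} {Ok : Finset D.P → Prop} {z : ℕ → ℕ} {N A X : ℕ} {K : Fin k → ℕ}

open Classical in
/-- the sum over the possible primes of scale `κ` -/
noncomputable def SA (β : ℝ) (D : CD k G) (z : ℕ → ℕ) (N X : ℕ) (K : Fin k → ℕ) (κ : ℕ)
    (t : D.P → Fin k → D.ι → G) : ℝ :=
  ∑ p ∈ (pr D X).filter (fun p => p ∉ D.Ex ∧ sc z N (D.nm p) = κ),
    (∑ o ∈ (D.V p).filter (fun o => D.cmp o ∈ Js K κ ∧ ∀ j ∉ Js K κ, ∀ i ∈ D.I p o j,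
      t p j i = D.g p o i), β ^ (∑ j ∈ Js K (κ + 2), (D.I p o j).card)) / D.nm p

open Classical in
/-- STAGE A: the ordinary primes of scale `κ` -/
theorem stageA (hβ : 0 < β) (hS : SysW D.P D.nm) {R : Finset (Cfg D)} (hR : ∀ ω ∈ R, Admo D Ok z N A X K ω) {κ : ℕ}
    {B : ℝ} (hB : ∀ t : D.P → Fin k → D.ι → G, SA β D z N X K κ t ≤ B) :
    ∑ ω ∈ R.image (mid D z N K κ), VC β D z N K κ ω ≤
      Real.exp B * ∑ ω ∈ R.image (pre D z N K κ), VC β D z N K κ ω := by
  have e0 : R.image (pre D z N K κ) = (R.image (mid D z N K κ)).image (pre D z N K κ) := by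
    rw [Finset.image_image]
    refine Finset.image_congr fun ω _ => ?_
    exact (pre_mid D z N K κ ω).symm
  rw [e0]
  refine fib_sum _ _ _ _ fun b _ => ?_
  obtain ⟨F, hF⟩ : ∃ F, F = (R.image (mid D z N K κ)).filter (fun a => pre D z N K κ a = b) := ⟨_, rfl⟩
  rw [← hF]
  -- the description of the fibre
  obtain ⟨sl, hsl⟩ : ∃ sl : Cfg D → Finset (D.P × D.O), sl = fun a => a.2.1.filter
    (fun x => sc z N (D.nm x.1) = κ) := ⟨_, rfl⟩
  have hf : ∀ a ∈ F, ∃ ω ∈ R, a = mid D z N K κ ω ∧ pre D z N K κ ω = b := by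
    intro a ha
    rw [hF] at ha
    obtain ⟨h1, h2⟩ := Finset.mem_filter.mp ha
    obtain ⟨ω, h3, h4⟩ := Finset.mem_image.mp h1
    refine ⟨ω, h3, h4.symm, ?_⟩
    rw [← h4, pre_mid] at h2
    exact h2
  have ha1 : ∀ a ∈ F, a.1 = b.1 ∧ a.2.1 = b.2.1 ∪ sl a ∧ a.2.2 = b.2.2 ∧ Disjoint b.2.1 (sl a) := by
    intro a ha
    obtain ⟨ω, h1, h2, h3⟩ := hf a ha
    refine ⟨?_, ?_, ?_, ?_⟩
    · rw [h2, ← h3]
      rfl
    · rw [hsl, ← h3, h2]
      simp only [mid, pre, lowA]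
      ext x
      simp only [Finset.mem_union, Finset.mem_filter]
      constructor
      · rintro ⟨g1, g2⟩
        by_cases g3 : sc z N (D.nm x.1) < κ
        · exact Or.inl ⟨g1, g3⟩
        · exact Or.inr ⟨⟨g1, g2⟩, by omega⟩
      · rintro (⟨g1, g2⟩ | ⟨g1, g2⟩)
        · exact ⟨g1, by omega⟩
        · exact g1
    · rw [h2, ← h3]
      rfl
    · rw [Finset.disjoint_left]
      intro x hx hx'
      rw [← h3] at hx
      rw [hsl] at hx'
      have g1 := (Finset.mem_filter.mp hx).2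
      have g2 := (Finset.mem_filter.mp hx').2
      omega
  have hVC : ∀ a ∈ F, VC β D z N K κ a = VC β D z N K κ b * ∏ x ∈ sl a, vA β D z N K κ x := by
    intro a ha
    obtain ⟨h1, h2, h3, h4⟩ := ha1 a ha
    unfold VC
    rw [h1, h2, h3, Finset.prod_union h4]
    ring
  rw [Finset.sum_congr rfl hVC, ← Finset.mul_sum, mul_comm]
  refine mul_le_mul_of_nonneg_right ?_ (VC_nonneg hβ D z N K κ b)
  -- the possible primes
  obtain ⟨Al, hAl⟩ : ∃ Al : Finset (D.P × D.O), Al = (atoms D X).filter (fun a => a.1 ∉ D.Ex ∧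
    sc z N (D.nm a.1) = κ ∧ D.cmp a.2 ∈ Js K κ ∧ ∀ j ∉ Js K κ, ∀ i ∈ D.I a.1 a.2 j,
      TT D b j a.1 i = D.g a.1 a.2 i) := ⟨_, rfl⟩
  have hsub : ∀ a ∈ F, sl a ⊆ Al := by
    intro a ha x hx
    obtain ⟨ω, h1, h2, h3⟩ := hf a ha
    have hω := hR ω h1
    rw [hsl, h2] at hx
    obtain ⟨g1, g2⟩ := Finset.mem_filter.mp hx
    have g3 : x ∈ ω.2.1 := (Finset.mem_filter.mp g1).1
    obtain ⟨m1, m2, m3, m4⟩ := hω.adm.mem x g3
    rw [hAl]
    refine Finset.mem_filter.mpr ⟨(mem_atoms hS).mpr ⟨m2, m3⟩, m1, g2, ?_, ?_⟩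
    · refine Finset.mem_filter.mpr ⟨Finset.mem_univ _, ?_⟩
      rw [← g2]
      exact m4
    · intro j hj i hi
      have g4 : K j ≤ κ := by
        by_contra hlt
        exact hj (Finset.mem_filter.mpr ⟨Finset.mem_univ _, by omega⟩)
      rw [← h3, TT_pre hω.adm g4]
      exact hω.adm.cmpt x g3 j (by omega) i hi
  have hinj : Set.InjOn sl (F : Set (Cfg D)) := by
    intro a ha a' ha' h
    obtain ⟨h1, h2, h3, _⟩ := ha1 a (Finset.mem_coe.mp ha)
    obtain ⟨h1', h2', h3', _⟩ := ha1 a' (Finset.mem_coe.mp ha')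
    refine Prod.ext (h1.trans h1'.symm) (Prod.ext ?_ (h3.trans h3'.symm))
    rw [h2, h2', h]
  have h1 : ∑ a ∈ F, ∏ x ∈ sl a, vA β D z N K κ x = ∑ s ∈ F.image sl, ∏ x ∈ s, vA β D z N K κ x := by
    rw [Finset.sum_image]
    exact hinj
  have h2 : ∑ s ∈ F.image sl, ∏ x ∈ s, vA β D z N K κ x ≤
      ∑ s ∈ Al.powerset, ∏ x ∈ s, vA β D z N K κ x := by
    refine Finset.sum_le_sum_of_subset_of_nonneg ?_ fun s _ _ => prod_vA_nonneg hβ D z N K κ s
    intro s hs
    obtain ⟨a, ha, rfl⟩ := Finset.mem_image.mp hs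
    exact Finset.mem_powerset.mpr (hsub a ha)
  have h3 : ∑ s ∈ Al.powerset, ∏ x ∈ s, vA β D z N K κ x ≤ Real.exp (∑ x ∈ Al, vA β D z N K κ x) := by
    rw [← Finset.prod_one_add, Real.exp_sum]
    refine Finset.prod_le_prod (fun x _ => add_nonneg zero_le_one (vA_nonneg hβ D z N K κ x)) fun x _ => ?_
    rw [add_comm]
    exact Real.add_one_le_exp _
  have h4 : ∑ x ∈ Al, vA β D z N K κ x = SA β D z N X K κ (fun p j i => TT D b j p i) := by
    unfold SA
    rw [Finset.sum_finset_product Al ((pr D X).filter (fun p => p ∉ D.Ex ∧ sc z N (D.nm p) = κ))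
      (fun p => (D.V p).filter (fun o => D.cmp o ∈ Js K κ ∧ ∀ j ∉ Js K κ, ∀ i ∈ D.I p o j,
        TT D b j p i = D.g p o i))]
    · refine Finset.sum_congr rfl fun p hp => ?_
      rw [Finset.sum_div]
      refine Finset.sum_congr rfl fun o _ => ?_
      unfold vA
      have hsp := (Finset.mem_filter.mp hp).2.2
      congr 2
      refine Finset.sum_congr ?_ fun _ _ => rfl
      unfold Js
      refine Finset.filter_congr fun j _ => ?_
      rw [hsp]
      omega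
    · intro a
      rw [hAl, Finset.mem_filter, mem_atoms hS, Finset.mem_filter, Finset.mem_filter, mem_pr hS]
      tauto
  rw [h1]
  refine h2.trans (h3.trans (Real.exp_le_exp.mpr ?_))
  rw [h4]
  exact hB _

end stA

section stB

/-- what is needed of the ordinary primes -/
structure Ordo (D : CD k G) (Ok : Finset D.P → Prop) (z : ℕ → ℕ) (N A : ℕ)
    (e : Finset (D.P × D.O)) : Prop where
  mem : ∀ a ∈ e, a.1 ∉ D.Ex ∧ a.2 ∈ D.V a.1
  fn : ∀ a ∈ e, ∀ b ∈ e, a.1 = b.1 → a = b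
  sm : ∀ κ, 1 ≤ κ → κ + 1 ≤ N - 1 →
    (∏ a ∈ e.filter (fun a => D.nm a.1 ≤ z κ), D.nm a.1) ^ A ≤ z (κ + 1)
  ok : ∃ m' : Finset D.P, Ok m' ∧ ∀ a ∈ e, a.1 ∈ m'

variable [CommGroup G] {D : CD k G} {Ok : Finset D.P → Prop} {ε C : ℝ} {z : ℕ → ℕ} {N A X K₀ : ℕ} {K : Fin k → ℕ}

open Classical in
theorem Admo.ord (hS : SysW D.P D.nm) {ω : Cfg D} (hω : Admo D Ok z N A X K ω) (κ : ℕ) :
    Ordo D Ok z N A (lowA D z N κ ω.2.1) where
  mem a ha := ⟨(hω.adm.mem a (Finset.mem_filter.mp ha).1).1,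
    (hω.adm.mem a (Finset.mem_filter.mp ha).1).2.2.1⟩
  fn a ha b hb h := hω.adm.fn a (Finset.mem_filter.mp ha).1 b (Finset.mem_filter.mp hb).1 h
  sm κ' h1 h2 := by
    refine (Nat.pow_le_pow_left ?_ _).trans (hω.adm.sm κ' h1 h2)
    refine Nat.le_of_dvd (Finset.prod_pos fun a _ => ?_) ?_
    · have := hS.two a.1
      omega
    · refine Finset.prod_dvd_prod_of_subset _ _ _ (Finset.filter_subset_filter _ ?_)
      exact Finset.filter_subset _ _
  ok := by
    obtain ⟨m', h1, h2, _⟩ := hω.ok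
    exact ⟨m', h1, fun a ha => h2 a (Finset.mem_filter.mp ha).1⟩

open Classical in
/-- the possible special primes -/
noncomputable def SpA (D : CD k G) (Ok : Finset D.P → Prop) (z : ℕ → ℕ) (N X : ℕ) (K : Fin k → ℕ)
    (e : Finset (D.P × D.O)) (j : Fin k) : Finset (D.P × D.O) :=
  (atoms D X).filter (IsSpo D Ok z N X K e j)

open Classical in
theorem mem_SpA (hS : SysW D.P D.nm) {e : Finset (D.P × D.O)} {j : Fin k} {b : D.P × D.O} :
    b ∈ SpA D Ok z N X K e j ↔ IsSpo D Ok z N X K e j b := by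
  unfold SpA
  rw [Finset.mem_filter, mem_atoms hS]
  constructor
  · exact fun h => h.2
  · exact fun h => ⟨⟨h.1.2.1, h.1.2.2.1⟩, h⟩

open Classical in
/-- the number of the possible special primes -/
theorem cardSp (hβ : 0 < β) (hOk : ∀ m c, m ⊆ c → Ok c → Ok m) (hS : SysW D.P D.nm) (hC : 0 < C)
    (hBT : BTc D β Ok ε C A)
    (hV : ∀ p, (D.V p).card ≤ K₀) {e : Finset (D.P × D.O)} (he : Ordo D Ok z N A e) {j : Fin k}
    (hj : K j ≤ N) (h : ℕ) :
    (((SpA D Ok z N X K e j).filter (fun a => D.nm a.1 ≤ h)).card : ℝ) ≤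
      K₀ * C * wS β D z N K e j * (h / Real.log h ^ (1 - ε)) := by
  have hw := wS_pos hβ D z N K e j
  have hlog : 0 ≤ Real.log h := Real.log_natCast_nonneg h
  obtain ⟨T, hT⟩ : ∃ T, T = (SpA D Ok z N X K e j).filter (fun a => D.nm a.1 ≤ h) := ⟨_, rfl⟩
  rw [← hT]
  have hTm : ∀ a ∈ T, IsSpo D Ok z N X K e j a ∧ D.nm a.1 ≤ h := by
    intro a ha
    rw [hT] at ha
    obtain ⟨h1, h2⟩ := Finset.mem_filter.mp ha
    exact ⟨(mem_SpA hS).mp h1, h2⟩
  rcases Finset.eq_empty_or_nonempty T with h0 | ⟨b, hb⟩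
  · rw [h0]
    simp only [Finset.card_empty, Nat.cast_zero]
    positivity
  obtain ⟨hb1, hb2⟩ := hTm b hb
  have h2 : 2 ≤ h := (hS.two b.1).trans hb2
  have hcard : T.card ≤ K₀ * (T.image Prod.fst).card := by
    refine Finset.card_le_mul_card_image T K₀ fun p _ => ?_
    refine le_trans ?_ (hV p)
    refine Finset.card_le_card_of_injOn Prod.snd ?_ ?_
    · intro x hx
      obtain ⟨g1, g2⟩ := Finset.mem_filter.mp (Finset.mem_coe.mp hx)
      have g3 := (hTm x g1).1.1.2.2.1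
      rw [g2] at g3
      exact Finset.mem_coe.mpr g3
    · intro x hx y hy hxy
      have g1 := (Finset.mem_filter.mp (Finset.mem_coe.mp hx)).2
      have g2 := (Finset.mem_filter.mp (Finset.mem_coe.mp hy)).2
      exact Prod.ext (g1.trans g2.symm) hxy
  obtain ⟨τ, hτ⟩ : ∃ τ : D.P → D.O, ∀ a ∈ e, τ a.1 = a.2 := by
    have : ∀ p : D.P, ∃ o : D.O, ∀ a ∈ e, a.1 = p → o = a.2 := by
      intro p
      by_cases hp : ∃ a ∈ e, a.1 = p
      · obtain ⟨a, ha, rfl⟩ := hp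
        exact ⟨a.2, fun a' ha' h' => by rw [he.fn a' ha' a ha h']⟩
      · exact ⟨b.2, fun a ha h' => absurd ⟨a, ha, h'⟩ hp⟩
    choose τ hτ using this
    exact ⟨τ, fun a ha => hτ a.1 a ha rfl⟩
  obtain ⟨e', he'⟩ : ∃ e', e' = e.filter (fun a => sc z N (D.nm a.1) + 3 ≤ K j) := ⟨_, rfl⟩
  have he'e : ∀ a ∈ e', a ∈ e ∧ sc z N (D.nm a.1) + 3 ≤ K j := fun a ha => by
    rw [he'] at ha
    exact Finset.mem_filter.mp ha
  have hinj : Set.InjOn Prod.fst (e' : Set (D.P × D.O)) := by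
    intro a ha a' ha' haa
    exact he.fn a (he'e a (Finset.mem_coe.mp ha)).1 a' (he'e a' (Finset.mem_coe.mp ha')).1 haa
  have h1 := hBT j (e'.image Prod.fst) (by
      intro p hp
      obtain ⟨a, ha, rfl⟩ := Finset.mem_image.mp hp
      exact (he.mem a (he'e a ha).1).1) (by
      obtain ⟨m', k1, k2⟩ := he.ok
      refine hOk _ _ ?_ k1
      intro p hp
      obtain ⟨a, ha, rfl⟩ := Finset.mem_image.mp hp
      exact k2 a (he'e a ha).1) τ (by
      intro p hp
      obtain ⟨a, ha, rfl⟩ := Finset.mem_image.mp hp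
      rw [hτ a (he'e a ha).1]
      exact (he.mem a (he'e a ha).1).2)
      (fun p i => D.g p (τ p) i *
        (∏ c ∈ e.filter (fun c => c.1 ≠ p ∧ D.cmp c.2 = j), D.χ p i c.1 c.2)⁻¹) h h2 (by
      have hN1 : Nm D (e'.image Prod.fst) = ∏ a ∈ e', D.nm a.1 := by
        unfold Nm
        rw [Finset.prod_image]
        exact hinj
      rw [hN1]
      rcases Nat.lt_or_ge (K j) 3 with h3 | h3
      · have : e' = ∅ := by
          rw [he', Finset.filter_eq_empty_iff]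
          intro a _
          omega
        rw [this]
        simp only [Finset.prod_empty, one_pow]
        omega
      · have g1 := he.sm (K j - 2) (by omega) (by omega)
        have g2 : K j - 2 + 1 = K j - 1 := by omega
        rw [g2] at g1
        have g3 : z (K j - 1) < D.nm b.1 := by
          have g4 : sc z N (D.nm b.1) = K j - 1 := by
            have := hb1.1.2.2.2.2.1
            omega
          rw [← g4]
          exact sc_pos (by omega)
        refine (Nat.pow_le_pow_left ?_ _).trans (g1.trans (g3.le.trans hb2))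
        refine Nat.le_of_dvd (Finset.prod_pos fun a _ => ?_) (Finset.prod_dvd_prod_of_subset _ _ _ ?_)
        · have := hS.two a.1
          omega
        · intro a ha
          obtain ⟨k1, k2⟩ := he'e a ha
          exact Finset.mem_filter.mpr ⟨k1, sc_le (z := z) (N := N) (k := K j - 2) (by omega) (by omega)⟩)
      (T.image Prod.fst) (by
      intro Q hQ
      obtain ⟨q, hq, rfl⟩ := Finset.mem_image.mp hQ
      obtain ⟨⟨⟨g1, g2, g3, g4, g5, g6, g7⟩, m', q1, q2, q3⟩, g8⟩ := hTm q hq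
      refine ⟨g1, ?_, ⟨m', q1, q2, ?_⟩, g8, q.2, g3, g4, ?_⟩
      · intro hmem
        obtain ⟨a, ha, haq⟩ := Finset.mem_image.mp hmem
        exact g6 a (he'e a ha).1 haq
      · intro p hp
        obtain ⟨a, ha, rfl⟩ := Finset.mem_image.mp hp
        exact q3 a (he'e a ha).1
      · intro p hp i hi
        obtain ⟨a, ha, rfl⟩ := Finset.mem_image.mp hp
        obtain ⟨k1, k2⟩ := he'e a ha
        rw [hτ a k1] at hi
        show D.χ a.1 i q.1 q.2 = D.g a.1 (τ a.1) i *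
          (∏ c ∈ e.filter (fun c => c.1 ≠ a.1 ∧ D.cmp c.2 = j), D.χ a.1 i c.1 c.2)⁻¹
        rw [hτ a k1]
        exact g7 a k1 k2 i hi)
  have h3 : ∏ p ∈ e'.image Prod.fst, β ^ (D.I p (τ p) j).card = wS β D z N K e j := by
    rw [Finset.prod_image hinj]
    unfold wS
    rw [← he']
    refine Finset.prod_congr rfl fun a ha => ?_
    rw [hτ a (he'e a ha).1]
  rw [h3] at h1
  calc (T.card : ℝ) ≤ K₀ * ((T.image Prod.fst).card : ℝ) := by exact_mod_cast hcard
    _ ≤ K₀ * (C * wS β D z N K e j * (h / Real.log h ^ (1 - ε))) :=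
        mul_le_mul_of_nonneg_left h1 (Nat.cast_nonneg _)
    _ = _ := by ring

open Classical in
/-- the sum of the reciprocals of the possible special primes -/
theorem sumSp (hβ : 0 < β) (hOk : ∀ m c, m ⊆ c → Ok c → Ok m) (hS : SysW D.P D.nm) (hC : 0 < C)
    (hε : 0 < ε) (hε1 : ε ≤ 1) (hBT : BTc D β Ok ε C A)
    (hV : ∀ p, (D.V p).card ≤ K₀) (hX : 3 ≤ X) {e : Finset (D.P × D.O)} (he : Ordo D Ok z N A e)
    {j : Fin k} (hj : K j ≤ N) :
    ∑ s ∈ (SpA D Ok z N X K e j).image (fun b => ({b} : Finset (D.P × D.O))), (1 : ℝ) / NmA D s ≤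
      EE ε C K₀ X * wS β D z N K e j := by
  have hw := wS_pos hβ D z N K e j
  rw [Finset.sum_image (fun a _ b _ h => Finset.singleton_injective h)]
  have h0 : ∀ b : D.P × D.O, NmA D {b} = D.nm b.1 := fun b => by simp [NmA]
  simp only [h0]
  have h1 := recip (SpA D Ok z N X K e j) (fun b => D.nm b.1) (a := K₀ * C * wS β D z N K e j) (ε := ε)
    (by positivity) hε hε1 hX (by
      intro b hb
      exact ⟨hS.two b.1, ((mem_SpA hS).mp hb).1.2.1⟩) (fun h _ => cardSp hβ hOk hS hC hBT hV he hj h)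
  refine h1.trans ?_
  unfold EE
  have hlX : 0 ≤ Real.log X := Real.log_natCast_nonneg X
  have h2 : 0 ≤ Real.log X ^ ε * wS β D z N K e j := by positivity
  calc 16 / ε * (K₀ * C * wS β D z N K e j) * Real.log X ^ ε =
        16 / ε * (K₀ * C) * (Real.log X ^ ε * wS β D z N K e j) := by ring
    _ ≤ (1 + 16 / ε * (K₀ * C)) * (Real.log X ^ ε * wS β D z N K e j) :=
        mul_le_mul_of_nonneg_right (by linarith) h2
    _ = _ := by ring

open Classical in
omit [CommGroup G] in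
theorem vA_succ (D : CD k G) (z : ℕ → ℕ) (N : ℕ) (K : Fin k → ℕ) (κ : ℕ) (a : D.P × D.O) :
    vA β D z N K κ a = vA β D z N K (κ + 1) a *
      ∏ j ∈ Finset.univ.filter (fun j => K j = κ + 1), if sc z N (D.nm a.1) + 3 ≤ K j then
        β ^ (D.I a.1 a.2 j).card else 1 := by
  unfold vA
  rw [← Finset.prod_filter, Finset.filter_filter, Finset.prod_pow_eq_pow_sum, div_mul_eq_mul_div,
    ← pow_add]
  congr 2
  rw [← Finset.sum_union]
  · refine Finset.sum_congr ?_ fun _ _ => rfl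
    ext j
    simp only [Finset.mem_union, Finset.mem_filter, Finset.mem_univ, true_and]
    omega
  · rw [Finset.disjoint_left]
    intro j h1 h2
    have g1 := (Finset.mem_filter.mp h1).2
    have g2 := (Finset.mem_filter.mp h2).2
    omega

open Classical in
omit [CommGroup G] in
theorem prod_vA_succ (D : CD k G) (z : ℕ → ℕ) (N : ℕ) (K : Fin k → ℕ) (κ : ℕ)
    (e : Finset (D.P × D.O)) :
    ∏ a ∈ e, vA β D z N K κ a = (∏ a ∈ e, vA β D z N K (κ + 1) a) *
      ∏ j ∈ Finset.univ.filter (fun j => K j = κ + 1), wS β D z N K e j := by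
  rw [Finset.prod_congr rfl fun a _ => vA_succ D z N K κ a, Finset.prod_mul_distrib,
    Finset.prod_comm]
  congr 1
  refine Finset.prod_congr rfl fun j _ => ?_
  unfold wS
  rw [Finset.prod_filter]

open Classical in
/-- the condition for the special prime depends only on the part of smaller scale -/
theorem IsSpo_low {e : Finset (D.P × D.O)} (he : ∀ a ∈ e, sc z N (D.nm a.1) < K (D.cmp a.2))
    {j : Fin k} {κ : ℕ} (hj : K j ≤ κ) {b : D.P × D.O} (hb : IsSpo D Ok z N X K e j b) :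
    IsSpo D Ok z N X K (lowA D z N κ e) j b := by
  obtain ⟨h1, m', h2, h3, h4⟩ := hb
  exact ⟨IsSp_low he hj h1, m', h2, h3, fun a ha => h4 a (Finset.mem_filter.mp ha).1⟩

open Classical in
/-- the possible values of the special primes -/
noncomputable def UB (D : CD k G) (Ok : Finset D.P → Prop) (z : ℕ → ℕ) (N X : ℕ) (K : Fin k → ℕ) (κ : ℕ) (b : Cfg D)
    (j : Fin k) : Finset (Finset (D.P × D.O)) :=
  if K j = κ + 1 then (SpA D Ok z N X K b.2.1 j).image (fun x => {x}) else {b.2.2 j}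

open Classical in
/-- the fibres of `mid` -/
theorem mem_UB (hS : SysW D.P D.nm) {ω : Cfg D} (hω : Admo D Ok z N A X K ω) {κ : ℕ}
    (hκ : κ + 1 ≤ N) (j : Fin k) :
    (pre D z N K (κ + 1) ω).2.2 j ∈ UB D Ok z N X K κ (mid D z N K κ ω) j := by
  unfold UB
  by_cases h : K j = κ + 1
  · rw [if_pos h]
    obtain ⟨b, hb1, hb2⟩ := hω.q1 j (by omega) (by omega)
    refine Finset.mem_image.mpr ⟨b, (mem_SpA hS).mpr ?_, ?_⟩
    · exact IsSpo_low (fun a ha => (hω.adm.mem a ha).2.2.2) (by omega) hb2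
    · show {b} = (if K j ≤ κ + 1 then ω.2.2 j else ∅)
      rw [if_pos (by omega), hb1]
  · rw [if_neg h, Finset.mem_singleton]
    show (if K j ≤ κ + 1 then ω.2.2 j else ∅) = (if K j ≤ κ then ω.2.2 j else ∅)
    by_cases h1 : K j ≤ κ
    · rw [if_pos h1, if_pos (by omega)]
    · rw [if_neg h1, if_neg (by omega)]

open Classical in
/-- STAGE B: the special primes of scale `κ` -/
theorem stageB (hβ : 0 < β) (hOk : ∀ m c, m ⊆ c → Ok c → Ok m) (hS : SysW D.P D.nm) (hC : 0 < C)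
    (hε : 0 < ε) (hε1 : ε ≤ 1) (hBT : BTc D β Ok ε C A)
    (hV : ∀ p, (D.V p).card ≤ K₀) (hX : 3 ≤ X) {R : Finset (Cfg D)}
    (hR : ∀ ω ∈ R, Admo D Ok z N A X K ω) {κ : ℕ} (hκ : κ + 1 ≤ N) :
    ∑ ω ∈ R.image (pre D z N K (κ + 1)), VC β D z N K (κ + 1) ω ≤
      EE ε C K₀ X ^ (Finset.univ.filter (fun j => K j = κ + 1)).card *
        ∑ ω ∈ R.image (mid D z N K κ), VC β D z N K κ ω := by
  have e0 : R.image (mid D z N K κ) = (R.image (pre D z N K (κ + 1))).image (mid D z N K κ) := by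
    rw [Finset.image_image]
    refine Finset.image_congr fun ω _ => ?_
    exact (mid_pre D z N K κ ω).symm
  rw [e0]
  refine fib_sum _ _ _ _ fun b hb => ?_
  rw [← e0] at hb
  obtain ⟨ω₀, hω₀, hb₀⟩ := Finset.mem_image.mp hb
  have hOrd : Ordo D Ok z N A b.2.1 := by
    rw [← hb₀]
    exact (hR ω₀ hω₀).ord hS (κ + 1)
  obtain ⟨F, hF⟩ : ∃ F, F = (R.image (pre D z N K (κ + 1))).filter (fun a => mid D z N K κ a = b) :=
    ⟨_, rfl⟩
  rw [← hF]
  have hf : ∀ a ∈ F, ∃ ω ∈ R, a = pre D z N K (κ + 1) ω ∧ mid D z N K κ ω = b := by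
    intro a ha
    rw [hF] at ha
    obtain ⟨h1, h2⟩ := Finset.mem_filter.mp ha
    obtain ⟨ω, h3, h4⟩ := Finset.mem_image.mp h1
    refine ⟨ω, h3, h4.symm, ?_⟩
    rw [← h4, mid_pre] at h2
    exact h2
  have ha1 : ∀ a ∈ F, a.1 = b.1 ∧ a.2.1 = b.2.1 ∧ a.2.2 ∈ Fintype.piFinset (UB D Ok z N X K κ b) := by
    intro a ha
    obtain ⟨ω, h1, h2, h3⟩ := hf a ha
    refine ⟨?_, ?_, ?_⟩
    · rw [h2, ← h3]
      rfl
    · rw [h2, ← h3]
      rfl
    · rw [Fintype.mem_piFinset]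
      intro j
      rw [h2, ← h3]
      exact mem_UB hS (hR ω h1) hκ j
  have hVC : ∀ a ∈ F, VC β D z N K (κ + 1) a =
      (1 / (Nm D b.1) * ∏ x ∈ b.2.1, vA β D z N K (κ + 1) x) * ∏ j, (1 : ℝ) / NmA D (a.2.2 j) := by
    intro a ha
    obtain ⟨h1, h2, _⟩ := ha1 a ha
    unfold VC
    rw [h1, h2]
  have hb0 : 0 ≤ (1 : ℝ) / (Nm D b.1) * ∏ x ∈ b.2.1, vA β D z N K (κ + 1) x :=
    mul_nonneg (by positivity) (prod_vA_nonneg hβ D z N K (κ + 1) _)
  have hE0 : 0 ≤ EE ε C K₀ X := zero_le_one.trans (EE_ge_one hC hε hX)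
  rw [Finset.sum_congr rfl hVC, ← Finset.mul_sum]
  have hinj : Set.InjOn (fun a : Cfg D => a.2.2) (F : Set (Cfg D)) := by
    intro a ha a' ha' h
    obtain ⟨h1, h2, _⟩ := ha1 a (Finset.mem_coe.mp ha)
    obtain ⟨h1', h2', _⟩ := ha1 a' (Finset.mem_coe.mp ha')
    exact Prod.ext (h1.trans h1'.symm) (Prod.ext (h2.trans h2'.symm) h)
  have h1 : ∑ a ∈ F, ∏ j, (1 : ℝ) / NmA D (a.2.2 j) ≤
      ∑ q ∈ Fintype.piFinset (UB D Ok z N X K κ b), ∏ j, (1 : ℝ) / NmA D (q j) := by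
    have e1 : ∑ a ∈ F, ∏ j, (1 : ℝ) / NmA D (a.2.2 j) =
        ∑ q ∈ F.image (fun a : Cfg D => a.2.2), ∏ j, (1 : ℝ) / NmA D (q j) := by
      rw [Finset.sum_image]
      exact hinj
    rw [e1]
    refine Finset.sum_le_sum_of_subset_of_nonneg ?_ fun q _ _ =>
      Finset.prod_nonneg fun j _ => by positivity
    intro q hq
    obtain ⟨a, ha, rfl⟩ := Finset.mem_image.mp hq
    exact (ha1 a ha).2.2
  have h2 : ∑ q ∈ Fintype.piFinset (UB D Ok z N X K κ b), ∏ j, (1 : ℝ) / NmA D (q j) =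
      ∏ j, ∑ s ∈ UB D Ok z N X K κ b j, (1 : ℝ) / NmA D s :=
    (Finset.prod_univ_sum (UB D Ok z N X K κ b) (fun _ s => (1 : ℝ) / NmA D s)).symm
  have h3 : ∀ j, ∑ s ∈ UB D Ok z N X K κ b j, (1 : ℝ) / NmA D s ≤
      (if K j = κ + 1 then EE ε C K₀ X * wS β D z N K b.2.1 j else 1) * ((1 : ℝ) / NmA D (b.2.2 j)) := by
    intro j
    unfold UB
    by_cases h : K j = κ + 1
    · rw [if_pos h, if_pos h]
      have e2 : b.2.2 j = ∅ := by
        rw [← hb₀]
        show (if K j ≤ κ then ω₀.2.2 j else ∅) = ∅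
        rw [if_neg (by omega)]
      have e3 : (NmA D (b.2.2 j) : ℝ) = 1 := by
        rw [e2]
        simp [NmA]
      rw [e3, div_one, mul_one]
      exact sumSp hβ hOk hS hC hε hε1 hBT hV hX hOrd (by omega)
    · rw [if_neg h, if_neg h, Finset.sum_singleton, one_mul]
  have h4 : ∏ j, ∑ s ∈ UB D Ok z N X K κ b j, (1 : ℝ) / NmA D s ≤
      ∏ j, ((if K j = κ + 1 then EE ε C K₀ X * wS β D z N K b.2.1 j else 1) *
        ((1 : ℝ) / NmA D (b.2.2 j))) :=
    Finset.prod_le_prod (fun j _ => Finset.sum_nonneg fun s _ => by positivity) fun j _ => h3 j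
  have h5 : ∏ j, ((if K j = κ + 1 then EE ε C K₀ X * wS β D z N K b.2.1 j else 1) *
        ((1 : ℝ) / NmA D (b.2.2 j))) =
      EE ε C K₀ X ^ (Finset.univ.filter (fun j => K j = κ + 1)).card *
        (∏ j ∈ Finset.univ.filter (fun j => K j = κ + 1), wS β D z N K b.2.1 j) *
          ∏ j, (1 : ℝ) / NmA D (b.2.2 j) := by
    rw [Finset.prod_mul_distrib, ← Finset.prod_filter, Finset.prod_mul_distrib, Finset.prod_const]
  refine (mul_le_mul_of_nonneg_left (h1.trans (h2.le.trans (h4.trans h5.le))) hb0).trans (le_of_eq ?_)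
  unfold VC
  rw [prod_vA_succ D z N K κ b.2.1]
  ring

open Classical in
/-- THE CHAIN: the sum of the weights of the configurations before the scale `n` -/
theorem chain (hβ : 0 < β) (hOk : ∀ m c, m ⊆ c → Ok c → Ok m) (hS : SysW D.P D.nm) (hC : 0 < C)
    (hε : 0 < ε) (hε1 : ε ≤ 1) (hBT : BTc D β Ok ε C A)
    (hV : ∀ p, (D.V p).card ≤ K₀) (hX : 3 ≤ X) {R : Finset (Cfg D)}
    (hR : ∀ ω ∈ R, Admo D Ok z N A X K ω) {B : ℕ → ℝ}
    (hB : ∀ κ < N, ∀ t : D.P → Fin k → D.ι → G, SA β D z N X K κ t ≤ B κ) (n : ℕ) (hn : n ≤ N) :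
    ∑ ω ∈ R.image (pre D z N K n), VC β D z N K n ω ≤
      EE ε C K₀ X ^ nb K n * (Real.exp (∑ κ ∈ Finset.range n, B κ) * Real.exp D.Ex.card) := by
  induction n with
  | zero =>
    have h0 : nb K 0 = 0 := by
      unfold nb
      rw [Finset.card_eq_zero, Finset.filter_eq_empty_iff]
      intro j _
      omega
    rw [h0, pow_zero, one_mul, Finset.range_zero, Finset.sum_empty, Real.exp_zero, one_mul]
    have hf : ∀ a ∈ R.image (pre D z N K 0), a.1 ∈ D.Ex.powerset ∧ a.2 = (∅, fun _ => ∅) := by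
      intro a ha
      obtain ⟨ω, h1, rfl⟩ := Finset.mem_image.mp ha
      refine ⟨Finset.mem_powerset.mpr (hR ω h1).adm.ex, Prod.ext ?_ ?_⟩
      · show lowA D z N 0 ω.2.1 = ∅
        unfold lowA
        rw [Finset.filter_eq_empty_iff]
        intro a _
        omega
      · funext j
        show (if K j ≤ 0 then ω.2.2 j else ∅) = ∅
        by_cases h : K j ≤ 0
        · rw [if_pos h]
          exact (hR ω h1).adm.q0 j (by omega)
        · rw [if_neg h]
    have h1 : ∀ a ∈ R.image (pre D z N K 0), VC β D z N K 0 a ≤ 1 := by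
      intro a ha
      obtain ⟨_, h2⟩ := hf a ha
      unfold VC
      rw [h2]
      simp only [Finset.prod_empty, NmA, Nat.cast_one, div_one, Finset.prod_const_one, mul_one]
      have h3 : (1 : ℝ) ≤ Nm D a.1 := by exact_mod_cast Nm_pos hS a.1
      rw [div_le_one (by linarith)]
      exact h3
    have h2 : (R.image (pre D z N K 0)).card ≤ D.Ex.powerset.card := by
      refine Finset.card_le_card_of_injOn (fun a : Cfg D => a.1) ?_ ?_
      · intro a ha
        exact Finset.mem_coe.mpr (hf a (Finset.mem_coe.mp ha)).1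
      · intro a ha a' ha' h
        exact Prod.ext h ((hf a (Finset.mem_coe.mp ha)).2.trans (hf a' (Finset.mem_coe.mp ha')).2.symm)
    refine (Finset.sum_le_sum h1).trans ?_
    rw [Finset.sum_const, nsmul_eq_mul, mul_one]
    have h3 : ((R.image (pre D z N K 0)).card : ℝ) ≤ (D.Ex.powerset.card : ℝ) := by exact_mod_cast h2
    refine h3.trans ?_
    rw [Finset.card_powerset]
    push_cast
    have h4 : (2 : ℝ) ≤ Real.exp 1 := by
      have := Real.add_one_le_exp (1 : ℝ)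
      linarith
    calc (2 : ℝ) ^ D.Ex.card ≤ Real.exp 1 ^ D.Ex.card := pow_le_pow_left₀ (by norm_num) h4 _
      _ = Real.exp D.Ex.card := by rw [← Real.exp_nat_mul, mul_one]
  | succ n ih =>
    have ih := ih (by omega)
    have h1 := stageA hβ hS hR (κ := n) (fun t => hB n (by omega) t)
    have h2 := stageB hβ hOk hS hC hε hε1 hBT hV hX hR (κ := n) hn
    have hE0 : 0 ≤ EE ε C K₀ X := zero_le_one.trans (EE_ge_one hC hε hX)
    have hE1 : 0 ≤ EE ε C K₀ X ^ (Finset.univ.filter (fun j => K j = n + 1)).card := by positivity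
    refine h2.trans ((mul_le_mul_of_nonneg_left (h1.trans (mul_le_mul_of_nonneg_left ih
      (Real.exp_pos _).le)) hE1).trans (le_of_eq ?_))
    rw [nb_succ, Finset.sum_range_succ, Real.exp_add, pow_add]
    ring

end stB

end Pool.Agent.MLT99
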