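import Pool.Agent.Helper99.MLT.TopT
import Pool.Agent.Helper13.MLT.Defs

/-!
# Project MLT (MP_e66f84_ag), block CLT: the sum of the weights, scale by scale, and the main count
-/

set_option autoImplicit false
set_option maxHeartbeats 1000000

namespace Pool.Agent.MLT99

open Filter Topology
open Pool.Agent.MLT (WJbt)
open Pool.Agent.HG (BadT)
open Pool.Agent.Helper97.HG2 (Kof lt_Kof Kof_le)
open Pool.Agent.Helper99.HG (CD pf Nm Bad pr Js sc sc_lt sc_le sc_pos mem_pf zz log_ge_one zz_mono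
  zz_top zz_zero zz_two ll_diff irr_card)
open Pool.Agent.Helper99.ML (SysW mem_pr nm_le_Nm Nm_pos BTc)
open Pool.Agent.TW37 (EE EE_ge_one)

variable {k : ℕ} {G : Type} {β : ℝ}

open Classical in
/-- the bound for the sums over the scales -/
theorem sa_sumT (hβ : 0 < β) (hβ1 : β ≤ 1) {D : CD k G} (hS : SysW D.P D.nm) {K₀ : ℕ}
    (hV : ∀ p, (D.V p).card ≤ K₀) {PB : Finset (Fin k) → Prop} {lam κM CB CM : ℝ}
    (hl0 : 0 ≤ lam) (hκM : 0 ≤ κM) (hCB : 0 ≤ CB) (hCM : 0 ≤ CM)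
    (hTB : ∀ J, PB J → ∀ y x : ℕ, 2 ≤ y → y ≤ x → ∀ t : D.P → Fin k → D.ι → G,
      ∀ S : Finset D.P, (∀ p, p ∈ S ↔ p ∉ D.Ex ∧ y < D.nm p ∧ D.nm p ≤ x) →
      ∑ p ∈ S, WJbt D β J (t p) p / D.nm p ≤ lam * (Real.log (Real.log x) - Real.log (Real.log y)) + CB)
    (hMe : ∀ y x : ℕ, 2 ≤ y → y ≤ x → ∀ S : Finset D.P, (∀ p ∈ S, y < D.nm p ∧ D.nm p ≤ x) →
      ∑ p ∈ S, (1 : ℝ) / D.nm p ≤ κM * (Real.log (Real.log x) - Real.log (Real.log y)) + CM)
    {N X : ℕ} (hN : 0 < N) (hX : 3 ≤ X) (K : Fin k → ℕ) (hK : ∀ κ < N, PB (Js K κ)) :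
    ∃ B : ℕ → ℝ, (∀ κ < N, ∀ t : D.P → Fin k → D.ι → G, SA β D (zz N X) N X K κ t ≤ B κ) ∧
      ∑ κ ∈ Finset.range N, B κ ≤ K₀ * (pr D 2).card +
        N * ((lam * Real.log 4 + CB) + K₀ * (κM * Real.log 4 + CM)) +
      (lam + 2 * k * (K₀ * κM) / N) * Real.log (Real.log X) := by
  set z := zz N X with hz
  set ℓ := Real.log (Real.log X) with hℓ
  have hℓ0 : 0 ≤ ℓ := Real.log_nonneg (log_ge_one hX)
  have hl4 : 0 ≤ Real.log 4 := Real.log_nonneg (by norm_num)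
  have hN' : (0 : ℝ) < N := by exact_mod_cast hN
  have hnm : ∀ p, (1 : ℝ) ≤ D.nm p := fun p => by
    have := hS.two p
    exact_mod_cast (by omega : 1 ≤ D.nm p)
  refine ⟨fun κ => (if κ = 0 then (K₀ * (pr D 2).card : ℝ) else 0) + (lam * (ℓ / N) +
    (if Js K κ ≠ Js K (κ + 2) then K₀ * (κM * (ℓ / N)) else 0) +
      ((lam * Real.log 4 + CB) + K₀ * (κM * Real.log 4 + CM))), ?_, ?_⟩
  · intro κ hκN t
    obtain ⟨w, hw⟩ : ∃ w : D.P → ℝ, w = fun p => ∑ o ∈ (D.V p).filter (fun o => D.cmp o ∈ Js K κ ∧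
      ∀ j ∉ Js K κ, ∀ i ∈ D.I p o j, t p j i = D.g p o i), β ^ (∑ j ∈ Js K (κ + 2), (D.I p o j).card) := ⟨_, rfl⟩
    have hw0 : ∀ p, 0 ≤ w p := fun p => by
      rw [hw]
      exact Finset.sum_nonneg fun o _ => by positivity
    have hwK : ∀ p, w p ≤ K₀ := fun p => by
      rw [hw]
      refine (Finset.sum_le_sum (g := fun _ => (1 : ℝ)) fun o _ => pow_le_one₀ hβ.le hβ1).trans ?_
      rw [Finset.sum_const, nsmul_eq_mul, mul_one]
      exact_mod_cast (Finset.card_filter_le _ _).trans (hV p)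
    obtain ⟨Rκ, hR⟩ : ∃ Rκ, Rκ = (pr D X).filter (fun p => p ∉ D.Ex ∧ sc z N (D.nm p) = κ) := ⟨_, rfl⟩
    have hSA : SA β D z N X K κ t = ∑ p ∈ Rκ, w p / D.nm p := by
      rw [hw, hR]
      rfl
    rw [hSA]
    rw [← Finset.sum_filter_add_sum_filter_not Rκ (fun p => D.nm p ≤ 2)]
    obtain ⟨R', hR'⟩ : ∃ R', R' = Rκ.filter (fun p => ¬ D.nm p ≤ 2) := ⟨_, rfl⟩
    rw [← hR']
    -- the primes of norm two
    have b0 : ∑ p ∈ Rκ.filter (fun p => D.nm p ≤ 2), w p / D.nm p ≤ if κ = 0 then (K₀ * (pr D 2).card : ℝ) else 0 := by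
      by_cases h0 : κ = 0
      · rw [if_pos h0]
        have h1 : ∑ p ∈ Rκ.filter (fun p => D.nm p ≤ 2), w p / D.nm p ≤ ∑ p ∈ Rκ.filter (fun p => D.nm p ≤ 2), (K₀ : ℝ) := by
          refine Finset.sum_le_sum fun p _ => ?_
          have := hnm p
          rw [div_le_iff₀ (by linarith)]
          have g1 := hwK p
          have g2 : (0 : ℝ) ≤ K₀ := Nat.cast_nonneg _
          nlinarith
        refine h1.trans ?_
        rw [Finset.sum_const, nsmul_eq_mul, mul_comm]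
        have h2 : Rκ.filter (fun p => D.nm p ≤ 2) ⊆ pr D 2 := fun p hp => (mem_pr hS).mpr (Finset.mem_filter.mp hp).2
        exact mul_le_mul_of_nonneg_left (by exact_mod_cast Finset.card_le_card h2) (Nat.cast_nonneg _)
      · rw [if_neg h0]
        have h1 : Rκ.filter (fun p => D.nm p ≤ 2) = ∅ := by
          rw [Finset.filter_eq_empty_iff]
          intro p hp h2
          rw [hR] at hp
          have h3 := (Finset.mem_filter.mp hp).2.2
          have h4 : z κ < D.nm p := by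
            rw [← h3]
            exact sc_pos (by rw [h3]; exact h0)
          have h5 : 2 ≤ z κ := zz_two hX
          omega
        rw [h1, Finset.sum_empty]
    have hRm : ∀ p ∈ R', p ∈ pr D X ∧ p ∉ D.Ex ∧ sc z N (D.nm p) = κ ∧ z κ < D.nm p := by
      intro p hp
      rw [hR', hR] at hp
      obtain ⟨h1, h2⟩ := Finset.mem_filter.mp hp
      obtain ⟨h3, h4, h5⟩ := Finset.mem_filter.mp h1
      refine ⟨h3, h4, h5, ?_⟩
      by_cases h0 : κ = 0
      · rw [h0, hz, zz_zero]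
        omega
      · rw [← h5]
        exact sc_pos (by rw [h5]; exact h0)
    have b1 : ∑ p ∈ R', w p / D.nm p ≤ lam * (ℓ / N) + (if Js K κ ≠ Js K (κ + 2) then K₀ * (κM * (ℓ / N)) else 0) +
        ((lam * Real.log 4 + CB) + K₀ * (κM * Real.log 4 + CM)) := by
      obtain ⟨T, hT⟩ : ∃ T, T = (pr D (z (κ + 1))).filter (fun p => p ∉ D.Ex ∧ z κ < D.nm p) := ⟨_, rfl⟩
      have hRT : R' ⊆ T := by
        intro p hp
        obtain ⟨h1, h2, h3, h4⟩ := hRm p hp
        rw [hT]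
        refine Finset.mem_filter.mpr ⟨(mem_pr hS).mpr ?_, h2, h4⟩
        rcases Nat.lt_or_ge (κ + 1) N with h5 | h5
        · exact sc_le (z := z) (N := N) (k := κ + 1) (by omega) (by omega)
        · have h6 : κ + 1 = N := by omega
          rw [h6, hz, zz_top hN hX]
          exact (mem_pr hS).mp h1
      have hTm : ∀ p, p ∈ T ↔ p ∉ D.Ex ∧ z κ < D.nm p ∧ D.nm p ≤ z (κ + 1) := by
        intro p
        rw [hT, Finset.mem_filter, mem_pr hS]
        tauto
      have hd := ll_diff hN hX hκN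
      rw [← hz, ← hℓ] at hd
      have hzκ : 2 ≤ z κ := zz_two hX
      have hzm : z κ ≤ z (κ + 1) := zz_mono hX (Nat.le_succ κ)
      have hd0 : 0 ≤ ℓ / N := by positivity
      have hK0 : (0 : ℝ) ≤ K₀ := Nat.cast_nonneg _
      by_cases hreg : Js K κ ≠ Js K (κ + 2)
      · rw [if_pos hreg]
        have h1 : ∑ p ∈ R', w p / D.nm p ≤ ∑ p ∈ R', K₀ * ((1 : ℝ) / D.nm p) := by
          refine Finset.sum_le_sum fun p _ => ?_
          rw [mul_one_div]
          exact div_le_div_of_nonneg_right (hwK p) (by linarith [hnm p])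
        rw [← Finset.mul_sum] at h1
        have h2 := hMe (z κ) (z (κ + 1)) hzκ hzm R' (fun p hp => ((hTm p).mp (hRT hp)).2)
        have h2' : κM * (Real.log (Real.log (z (κ + 1))) - Real.log (Real.log (z κ))) ≤ κM * (ℓ / N + Real.log 4) :=
          mul_le_mul_of_nonneg_left hd hκM
        have h3 : K₀ * ∑ p ∈ R', (1 : ℝ) / D.nm p ≤ K₀ * (κM * (ℓ / N + Real.log 4) + CM) := mul_le_mul_of_nonneg_left (by linarith) hK0
        have h4 : 0 ≤ lam * (ℓ / N) := mul_nonneg hl0 hd0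
        have h5 : 0 ≤ lam * Real.log 4 + CB := by positivity
        calc ∑ p ∈ R', w p / D.nm p ≤ K₀ * (κM * (ℓ / N + Real.log 4) + CM) := h1.trans h3
          _ = K₀ * (κM * (ℓ / N)) + K₀ * (κM * Real.log 4 + CM) := by ring
          _ ≤ _ := by linarith
      · rw [if_neg hreg]
        push Not at hreg
        have h1 : ∀ p, w p = WJbt D β (Js K κ) (t p) p := by
          intro p
          rw [hw]
          unfold WJbt
          simp only
          rw [← hreg]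
        have h2 : ∑ p ∈ R', w p / D.nm p ≤ ∑ p ∈ T, WJbt D β (Js K κ) (t p) p / D.nm p := by
          rw [Finset.sum_congr rfl fun p _ => by rw [h1 p]]
          refine Finset.sum_le_sum_of_subset_of_nonneg hRT fun p _ _ => div_nonneg ?_ (by linarith [hnm p])
          rw [← h1 p]
          exact hw0 p
        have h3 := hTB _ (hK κ hκN) (z κ) (z (κ + 1)) hzκ hzm t T hTm
        have h4 : lam * (Real.log (Real.log (z (κ + 1))) - Real.log (Real.log (z κ))) ≤ lam * (ℓ / N + Real.log 4) :=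
          mul_le_mul_of_nonneg_left hd hl0
        have h6 : 0 ≤ K₀ * (κM * Real.log 4 + CM) := by positivity
        linarith
    exact add_le_add b0 b1
  · rw [Finset.sum_add_distrib, Finset.sum_add_distrib, Finset.sum_add_distrib, Finset.sum_const, Finset.sum_const,
      Finset.card_range, nsmul_eq_mul, nsmul_eq_mul, ← Finset.sum_filter (s := Finset.range N)
        (p := fun κ => Js K κ ≠ Js K (κ + 2)), Finset.sum_const, nsmul_eq_mul,
      Finset.sum_ite_eq' (Finset.range N) 0 (fun _ => (K₀ * (pr D 2).card : ℝ)), if_pos (Finset.mem_range.mpr hN)]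
    have hirr : (((Finset.range N).filter fun κ => Js K κ ≠ Js K (κ + 2)).card : ℝ) ≤ 2 * k := by exact_mod_cast irr_card K N
    have h7 : (((Finset.range N).filter fun κ => Js K κ ≠ Js K (κ + 2)).card : ℝ) * (K₀ * (κM * (ℓ / N))) ≤ 2 * k * (K₀ * (κM * (ℓ / N))) :=
      mul_le_mul_of_nonneg_right hirr (by positivity)
    have h8 : (N : ℝ) * (lam * (ℓ / N)) = lam * ℓ := by field_simp
    have h9 : (lam + 2 * k * (K₀ * κM) / N) * ℓ = lam * ℓ + 2 * k * (K₀ * (κM * (ℓ / N))) := by ring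
    rw [h8, h9]
    linarith

open Classical in
/-- the main count -/
theorem main_countT [CommGroup G] (hβ : 0 < β) {D : CD k G} (hS : SysW D.P D.nm)
    {Ok : Finset D.P → Prop} (hOk : ∀ m c, m ⊆ c → Ok c → Ok m) {ε C : ℝ} {A : ℕ} (hC : 0 < C)
    (hε : 0 < ε) (hε1 : ε ≤ 1) (hBT : BTc D β Ok ε C A) {z : ℕ → ℕ} {N X : ℕ} (hN : 2 ≤ N)
    (hz : 2 ≤ z (N - 1)) (hX : 3 ≤ X) {K₀ : ℕ} (hV : ∀ p, (D.V p).card ≤ K₀)
    {PB : Finset (Fin k) → Prop} (hPB : ∀ J, PB J → J.Nonempty) (S : Finset (Finset D.P))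
    (hSc : ∀ c ∈ S, Nm D c ≤ X ∧ Ok c ∧ Bad D c ∧
      (∀ κ < N, ∀ J, ¬ PB J → ∃ p ∈ pf D c, sc z N (D.nm p) = κ ∧ ∀ o ∈ D.V p, D.cmp o ∉ J) ∧
      (∀ κ, 1 ≤ κ → κ + 1 ≤ N - 1 → (∏ p ∈ (pf D c).filter (fun p => D.nm p ≤ z κ), D.nm p) ^ A ≤ z (κ + 1)))
    {B : ℝ} (hB : ∀ K : Fin k → ℕ, (∀ j, K j ≤ N) → (∀ κ < N, PB (Js K κ)) →
      ∃ Bf : ℕ → ℝ, (∀ κ < N, ∀ t : D.P → Fin k → D.ι → G, SA β D z N X K κ t ≤ Bf κ) ∧
        ∑ κ ∈ Finset.range N, Bf κ ≤ B) :
    (S.card : ℝ) ≤ (N + 1) ^ k * (K₀ * C * EE ε C K₀ X ^ k / Real.log (z (N - 1)) ^ (1 - ε) * X *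
      Real.exp (D.Ex.card + B)) := by
  set Ks := (Fintype.piFinset fun _ : Fin k => Finset.range (N + 1)).filter fun K => ∀ κ < N, PB (Js K κ) with hKs
  let SK : (Fin k → ℕ) → Finset (Finset D.P) := fun K => S.filter fun c => ∃ τ : D.P → D.O, BadT D c τ ∧ Kof D z N c τ = K
  have hsub : S ⊆ Ks.biUnion SK := by
    intro c hc
    obtain ⟨h1, h0, ⟨τ, h2⟩, h3, h4⟩ := hSc c hc
    refine Finset.mem_biUnion.mpr ⟨Kof D z N c τ, Finset.mem_filter.mpr ⟨Fintype.mem_piFinset.mpr fun j =>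
      Finset.mem_range.mpr (Nat.lt_succ_of_le (Kof_le (by omega) c τ j)), fun κ hκ => ?_⟩, Finset.mem_filter.mpr ⟨hc, τ, ?_, rfl⟩⟩
    · by_contra h
      obtain ⟨p, hp, hps, hpo⟩ := h3 κ hκ _ h
      refine hpo (τ p) (h2 p hp).1 ?_
      refine Finset.mem_filter.mpr ⟨Finset.mem_univ _, ?_⟩
      rw [← hps]
      exact lt_Kof hp
    · intro p hp
      exact h2 p hp
  have hlX : 0 ≤ Real.log X := Real.log_natCast_nonneg X
  have hlz : 0 ≤ Real.log (z (N - 1)) := Real.log_natCast_nonneg _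
  have hE0 : 0 ≤ EE ε C K₀ X := zero_le_one.trans (EE_ge_one hC hε hX)
  have hK1 : ∀ K ∈ Ks, ((SK K).card : ℝ) ≤ K₀ * C * EE ε C K₀ X ^ k / Real.log (z (N - 1)) ^ (1 - ε) * X *
      Real.exp (D.Ex.card + B) := by
    intro K hK
    obtain ⟨hKa, hKb⟩ := Finset.mem_filter.mp hK
    have hKle : ∀ j, K j ≤ N := fun j => by
      have := Finset.mem_range.mp (Fintype.mem_piFinset.mp hKa j)
      omega
    obtain ⟨Bf, hBf, h2⟩ := hB K hKle hKb
    have h1 := perKt hβ hOk hS hC hε hε1 hBT hV hN hz hX hKle (hPB _ (hKb (N - 1) (by omega))) (SK K) (by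
        intro c hc
        obtain ⟨hcS, τ, hτ, hτK⟩ := Finset.mem_filter.mp hc
        obtain ⟨h1, h0, _, _, h4⟩ := hSc c hcS
        have h7 := cover_cfg (Ok := Ok) (A := A) (X := X) (N := N) (z := z) hS h1 h0 hτ h4
        rw [hτK] at h7
        exact h7) (B := Bf) hBf
    refine h1.trans ?_
    refine mul_le_mul_of_nonneg_left (Real.exp_le_exp.mpr ?_) (by positivity)
    exact add_le_add le_rfl h2
  have hcard : (S.card : ℝ) ≤ ∑ K ∈ Ks, ((SK K).card : ℝ) := by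
    exact_mod_cast (Finset.card_le_card hsub).trans Finset.card_biUnion_le
  refine (hcard.trans (Finset.sum_le_sum hK1)).trans ?_
  rw [Finset.sum_const, nsmul_eq_mul]
  have h5 : Ks.card ≤ (N + 1) ^ k := by
    refine (Finset.card_filter_le _ _).trans ?_
    rw [Fintype.card_piFinset]
    simp
  have h6 : (Ks.card : ℝ) ≤ (N + 1) ^ k := by exact_mod_cast h5
  exact mul_le_mul_of_nonneg_right h6 (by positivity)

end Pool.Agent.MLT99
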