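import Pool.Agent.Helper99.MLT.RecT

/-!
# Project MLT (MP_e66f84_ag), block CLT: the configuration of a set, the special primes of the
largest scale
-/

set_option autoImplicit false
set_option maxHeartbeats 1000000

namespace Pool.Agent.MLT99

open Filter Topology
open Pool.Agent.HG (BadT)
open Pool.Agent.Helper97.HG2 (Kof lt_Kof Kof_le)
open Pool.Agent.Helper99.HG (CD pf Nm pr Js sc sc_lt sc_le sc_pos mem_pf tuple recip)
open Pool.Agent.Helper99.ML (SysW mem_pr nm_le_Nm Nm_pos BTc)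
open Pool.Agent.TW37 (Cfg NmA TT IsSp Adm lowA lowQ pre mid fib_sum lowA_lowA lowQ_lowQ pre_mid
  mid_pre atoms TT_pre IsSp_low nb nb_succ EE EE_ge_one pre_full cfgOf graph_inj prod_graph
  prod_graph_filter cfg_union cfg_norm)

variable {k : ℕ} {G : Type} {β : ℝ}

section cov

variable {D : CD k G} {Ok : Finset D.P → Prop} {z : ℕ → ℕ} {N A X : ℕ} {K : Fin k → ℕ}
  {c : Finset D.P} {τ : D.P → D.O} {q : Fin k → Finset D.P}

open Classical in
/-- the configuration is admissible -/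
theorem cfg_adm [CommGroup G] (hS : SysW D.P D.nm) (hcX : Nm D c ≤ X) (hτ : BadT D c τ)
    (hsm : ∀ κ, 1 ≤ κ → κ + 1 ≤ N - 1 →
      (∏ p ∈ (pf D c).filter (fun p => D.nm p ≤ z κ), D.nm p) ^ A ≤ z (κ + 1))
    (hq : ∀ j, ∀ p ∈ q j, p ∈ pf D c ∧ D.cmp (τ p) = j) (hq0 : ∀ j, K j = 0 → q j = ∅)
    (hq1 : ∀ j, K j ≠ 0 → K j ≤ N → ∃ Q, q j = {Q} ∧ sc z N (D.nm Q) + 1 = K j)
    (hK : ∀ p ∈ pf D c, sc z N (D.nm p) < K (D.cmp (τ p))) :
    Adm D z N A X K (cfgOf D c τ q) := by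
  obtain ⟨T, hT⟩ : ∃ T, T = Finset.univ.biUnion q := ⟨_, rfl⟩
  have hTm : ∀ p, p ∈ T ↔ ∃ j, p ∈ q j := by
    intro p
    rw [hT, Finset.mem_biUnion]
    simp only [Finset.mem_univ, true_and]
  have hmem : ∀ a ∈ (cfgOf D c τ q).2.1, ∃ p, p ∈ pf D c ∧ p ∉ T ∧ a = (p, τ p) := by
    intro a ha
    obtain ⟨p, hp, rfl⟩ := Finset.mem_image.mp ha
    rw [← hT] at hp
    exact ⟨p, (Finset.mem_sdiff.mp hp).1, (Finset.mem_sdiff.mp hp).2, rfl⟩
  refine ⟨?_, ?_, ?_, ?_, ?_, ?_, ?_⟩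
  · intro p hp
    exact (Finset.mem_filter.mp hp).2
  · intro a ha
    obtain ⟨p, h1, h2, rfl⟩ := hmem a ha
    exact ⟨(mem_pf.mp h1).2, (nm_le_Nm hS (mem_pf.mp h1).1).trans hcX, (hτ p h1).1, hK p h1⟩
  · intro a ha b hb h
    obtain ⟨p, h1, h2, rfl⟩ := hmem a ha
    obtain ⟨r, h3, h4, rfl⟩ := hmem b hb
    have h5 : p = r := h
    rw [h5]
  · intro a ha j hj i hi
    obtain ⟨p, h1, h2, rfl⟩ := hmem a ha
    have h3 := (hτ p h1).2 j i hi
    have hcp : D.cmp (τ p) ≠ j := by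
      intro h
      have := hK p h1
      rw [h] at this
      exact absurd hj (by simpa using this)
    show (∏ b ∈ ((((pf D c) \ Finset.univ.biUnion q).image (fun p => (p, τ p)))).filter
      (fun b => D.cmp b.2 = j), D.χ p i b.1 b.2) *
      ∏ b ∈ (q j).image (fun p => (p, τ p)), D.χ p i b.1 b.2 = D.g p (τ p) i
    rw [prod_graph_filter, prod_graph, ← h3, ← hT, ← Finset.prod_union]
    · refine Finset.prod_congr ?_ fun _ _ => rfl
      ext r
      simp only [Finset.mem_union, Finset.mem_filter, Finset.mem_sdiff]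
      constructor
      · rintro (⟨⟨g1, g2⟩, g3⟩ | g1)
        · exact ⟨g1, fun h => hcp (h ▸ g3), g3⟩
        · exact ⟨(hq j r g1).1, fun h => hcp (h ▸ (hq j r g1).2), (hq j r g1).2⟩
      · rintro ⟨g1, g2, g3⟩
        by_cases hr : r ∈ T
        · right
          obtain ⟨j', hj'⟩ := (hTm r).mp hr
          rw [← g3, (hq j' r hj').2]
          exact hj'
        · exact Or.inl ⟨⟨g1, hr⟩, g3⟩
    · rw [Finset.disjoint_left]
      intro r g1 g2
      exact (Finset.mem_sdiff.mp (Finset.mem_filter.mp g1).1).2 ((hTm r).mpr ⟨j, g2⟩)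
  · intro j hj
    show (q j).image _ = ∅
    rw [hq0 j hj, Finset.image_empty]
  · intro j hj hjN
    obtain ⟨Q, hQ1, hQ2⟩ := hq1 j hj hjN
    have hQq : Q ∈ q j := by
      rw [hQ1]
      exact Finset.mem_singleton_self Q
    have hQj := hq j Q hQq
    have hQT : Q ∈ T := (hTm Q).mpr ⟨j, hQq⟩
    refine ⟨(Q, τ Q), ?_, ?_⟩
    · show (q j).image _ = _
      rw [hQ1, Finset.image_singleton]
    · refine ⟨(mem_pf.mp hQj.1).2, (nm_le_Nm hS (mem_pf.mp hQj.1).1).trans hcX, (hτ Q hQj.1).1,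
        hQj.2, hQ2, ?_, ?_⟩
      · intro a ha h
        obtain ⟨p, h1, h2, rfl⟩ := hmem a ha
        have h3 : p = Q := h
        rw [h3] at h2
        exact h2 hQT
      · intro a ha _ i hi
        obtain ⟨p, h1, h2, rfl⟩ := hmem a ha
        have h3 := (hτ p h1).2 j i hi
        have hQp : Q ≠ p := fun h => h2 (h ▸ hQT)
        have e : (pf D c).filter (fun r => r ≠ p ∧ D.cmp (τ r) = j) =
            insert Q (((pf D c) \ T).filter (fun r => r ≠ p ∧ D.cmp (τ r) = j)) := by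
          ext r
          simp only [Finset.mem_insert, Finset.mem_filter, Finset.mem_sdiff]
          constructor
          · rintro ⟨g1, g2, g3⟩
            by_cases hr : r ∈ T
            · left
              obtain ⟨j', hj'⟩ := (hTm r).mp hr
              have h6 : j' = j := (hq j' r hj').2.symm.trans g3
              rw [h6, hQ1, Finset.mem_singleton] at hj'
              exact hj'
            · exact Or.inr ⟨⟨g1, hr⟩, g2, g3⟩
          · rintro (rfl | ⟨⟨g1, _⟩, g3, g4⟩)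
            · exact ⟨hQj.1, hQp, hQj.2⟩
            · exact ⟨g1, g3, g4⟩
        have hnot : Q ∉ ((pf D c) \ T).filter (fun r => r ≠ p ∧ D.cmp (τ r) = j) := fun h =>
          (Finset.mem_sdiff.mp (Finset.mem_filter.mp h).1).2 hQT
        rw [e, Finset.prod_insert hnot] at h3
        show D.χ p i Q (τ Q) = D.g p (τ p) i *
          (∏ c' ∈ ((((pf D c) \ Finset.univ.biUnion q).image (fun p => (p, τ p)))).filter
            (fun c' => c'.1 ≠ p ∧ D.cmp c'.2 = j), D.χ p i c'.1 c'.2)⁻¹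
        rw [prod_graph_filter, eq_mul_inv_iff_mul_eq, ← hT]
        exact h3
  · intro κ h1 h2
    refine (Nat.pow_le_pow_left ?_ _).trans (hsm κ h1 h2)
    show ∏ a ∈ ((((pf D c) \ Finset.univ.biUnion q).image (fun p => (p, τ p)))).filter
      (fun a => D.nm a.1 ≤ z κ), D.nm a.1 ≤ _
    rw [prod_graph_filter]
    refine Nat.le_of_dvd (Finset.prod_pos fun p _ => ?_) (Finset.prod_dvd_prod_of_subset _ _ _ ?_)
    · have := hS.two p
      omega
    · exact Finset.filter_subset_filter _ Finset.sdiff_subset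

open Classical in
/-- the configuration of a set with given options, with the scales `Kof` -/
theorem cover_cfg [CommGroup G] (hS : SysW D.P D.nm) (hcX : Nm D c ≤ X) (hc : Ok c)
    (hτ : BadT D c τ)
    (hsm : ∀ κ, 1 ≤ κ → κ + 1 ≤ N - 1 →
      (∏ p ∈ (pf D c).filter (fun p => D.nm p ≤ z κ), D.nm p) ^ A ≤ z (κ + 1)) :
    ∃ ω : Cfg D, Admo D Ok z N A X (Kof D z N c τ) ω ∧
      Nm D ω.1 * NmA D ω.2.1 * ∏ j, NmA D (ω.2.2 j) ≤ X ∧
      ω.1 ∪ (ω.2.1.image Prod.fst ∪ Finset.univ.biUnion fun j => (ω.2.2 j).image Prod.fst) = c := by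
  obtain ⟨K, hKdef⟩ : ∃ K, K = Kof D z N c τ := ⟨_, rfl⟩
  rw [← hKdef]
  have hK : ∀ p ∈ pf D c, sc z N (D.nm p) < K (D.cmp (τ p)) := fun p hp => by
    rw [hKdef]
    exact lt_Kof hp
  have hq : ∀ j, ∃ q : Finset D.P, if K j = 0 then q = ∅ else
      ∃ Q, q = {Q} ∧ Q ∈ pf D c ∧ D.cmp (τ Q) = j ∧ sc z N (D.nm Q) + 1 = K j := by
    intro j
    by_cases h : K j = 0
    · exact ⟨∅, by rw [if_pos h]⟩
    · have hne : ((pf D c).filter fun p => D.cmp (τ p) = j).Nonempty := by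
        rw [Finset.nonempty_iff_ne_empty]
        intro he
        refine h ?_
        rw [hKdef]
        unfold Kof
        rw [he]
        rfl
      obtain ⟨q, hq1, hq2⟩ := Finset.exists_mem_eq_sup _ hne fun p => sc z N (D.nm p) + 1
      refine ⟨{q}, ?_⟩
      rw [if_neg h]
      refine ⟨q, rfl, (Finset.mem_filter.mp hq1).1, (Finset.mem_filter.mp hq1).2, ?_⟩
      rw [hKdef]
      exact hq2.symm
  choose q hq using hq
  have hq0 : ∀ j, K j = 0 → q j = ∅ := fun j h => by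
    have := hq j
    rwa [if_pos h] at this
  have hq1 : ∀ j, K j ≠ 0 → ∃ Q, q j = {Q} ∧ Q ∈ pf D c ∧ D.cmp (τ Q) = j ∧
      sc z N (D.nm Q) + 1 = K j := fun j h => by
    have := hq j
    rwa [if_neg h] at this
  have hqm : ∀ j, ∀ p ∈ q j, p ∈ pf D c ∧ D.cmp (τ p) = j := by
    intro j p hp
    have h : K j ≠ 0 := by
      intro h
      rw [hq0 j h] at hp
      exact absurd hp (Finset.notMem_empty _)
    obtain ⟨Q, h1, h2, h3, _⟩ := hq1 j h
    rw [h1, Finset.mem_singleton] at hp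
    subst hp
    exact ⟨h2, h3⟩
  refine ⟨cfgOf D c τ q, ⟨cfg_adm hS hcX hτ hsm hqm hq0 (fun j h _ => ?_) hK, c, hc, ?_, ?_⟩, ?_,
    cfg_union hqm⟩
  · obtain ⟨Q, h1, _, _, h4⟩ := hq1 j h
    exact ⟨Q, h1, h4⟩
  · intro a ha
    obtain ⟨p, hp, rfl⟩ := Finset.mem_image.mp ha
    exact (mem_pf.mp (Finset.mem_sdiff.mp hp).1).1
  · intro j a ha
    obtain ⟨p, hp, rfl⟩ := Finset.mem_image.mp ha
    exact (mem_pf.mp (hqm j p hp).1).1
  · rw [cfg_norm hqm]
    exact hcX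

end cov

section top

variable [CommGroup G] {D : CD k G} {Ok : Finset D.P → Prop} {ε C : ℝ} {z : ℕ → ℕ}
  {N A X K₀ : ℕ} {K : Fin k → ℕ}

open Classical in
/-- TOP STAGE -/
theorem topStage (hβ : 0 < β) (hOk : ∀ m c, m ⊆ c → Ok c → Ok m) (hS : SysW D.P D.nm)
    (hC : 0 < C) (hε : 0 < ε) (hε1 : ε ≤ 1) (hBT : BTc D β Ok ε C A)
    (hV : ∀ p, (D.V p).card ≤ K₀) (hN : 2 ≤ N) (hz : 2 ≤ z (N - 1)) (hX : 3 ≤ X)
    (hKN : ∀ j, K j ≤ N) {j₁ : Fin k} (hj₁ : K j₁ = N) {R : Finset (Cfg D)}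
    (hR : ∀ ω ∈ R, Admo D Ok z N A X K ω)
    (hRX : ∀ ω ∈ R, Nm D ω.1 * NmA D ω.2.1 * ∏ j, NmA D (ω.2.2 j) ≤ X) :
    (R.card : ℝ) ≤ K₀ * C / Real.log (z (N - 1)) ^ (1 - ε) * X *
      EE ε C K₀ X ^ (Finset.univ.filter (fun j => K j = N)).card *
        ∑ ω ∈ R.image (mid D z N K (N - 1)), VC β D z N K (N - 1) ω := by
  obtain ⟨n, hn⟩ : ∃ n, N = n + 1 := ⟨N - 1, by omega⟩
  have hn1 : N - 1 = n := by omega
  rw [hn1]
  rw [hn1] at hz
  have hlz : 0 < Real.log (z n) := Real.log_pos (by exact_mod_cast (by omega : 1 < z n))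
  have hlzp : 0 < Real.log (z n) ^ (1 - ε) := by positivity
  have hE1 : 1 ≤ EE ε C K₀ X := EE_ge_one hC hε hX
  have hE0 : 0 ≤ EE ε C K₀ X := zero_le_one.trans hE1
  have h0 : (R.card : ℝ) = ∑ ω ∈ R, (1 : ℝ) := by simp
  rw [h0]
  refine fib_sum _ _ _ _ fun b hb => ?_
  obtain ⟨ω₀, hω₀, hb₀⟩ := Finset.mem_image.mp hb
  have hOrd : Ordo D Ok z N A b.2.1 := by
    rw [← hb₀]
    exact (hR ω₀ hω₀).ord hS (n + 1)
  obtain ⟨F, hF⟩ : ∃ F, F = R.filter (fun a => mid D z N K n a = b) := ⟨_, rfl⟩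
  rw [← hF]
  have hpre : ∀ a ∈ R, pre D z N K (n + 1) a = a := fun a ha => by
    have := pre_full hKN (hR a ha).adm
    rwa [hn] at this ⊢
  have ha1 : ∀ a ∈ F, a.1 = b.1 ∧ a.2.1 = b.2.1 ∧ a.2.2 ∈ Fintype.piFinset (UB D Ok z N X K n b) := by
    intro a ha
    rw [hF] at ha
    obtain ⟨h1, h2⟩ := Finset.mem_filter.mp ha
    have h3 := hpre a h1
    refine ⟨?_, ?_, ?_⟩
    · rw [← h2]
      rfl
    · rw [← h2]
      exact (congrArg (fun ω : Cfg D => ω.2.1) h3).symm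
    · rw [Fintype.mem_piFinset]
      intro j
      have h4 := mem_UB hS (hR a h1) (κ := n) (by omega) j
      rw [h3, h2] at h4
      exact h4
  -- the number of elements of the fibre
  obtain ⟨T, hT⟩ : ∃ T, T = (Fintype.piFinset (UB D Ok z N X K n b)).filter
    (fun q => (Nm D b.1 * NmA D b.2.1) * ∏ j, NmA D (q j) ≤ X) := ⟨_, rfl⟩
  have hcard : F.card ≤ T.card := by
    refine Finset.card_le_card_of_injOn (fun a : Cfg D => a.2.2) ?_ ?_
    · intro a ha
      obtain ⟨h1, h2, h3⟩ := ha1 a (Finset.mem_coe.mp ha)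
      rw [hT]
      refine Finset.mem_coe.mpr (Finset.mem_filter.mpr ⟨h3, ?_⟩)
      have h4 := Finset.mem_coe.mp ha
      rw [hF] at h4
      have h5 := hRX a (Finset.mem_filter.mp h4).1
      rw [h1, h2] at h5
      exact h5
    · intro a ha a' ha' h
      obtain ⟨h1, h2, _⟩ := ha1 a (Finset.mem_coe.mp ha)
      obtain ⟨h1', h2', _⟩ := ha1 a' (Finset.mem_coe.mp ha')
      exact Prod.ext (h1.trans h1'.symm) (Prod.ext (h2.trans h2'.symm) h)
  have hw := wS_pos hβ D z N K b.2.1 j₁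
  have hd : 0 < Nm D b.1 * NmA D b.2.1 := Nat.mul_pos (Nm_pos hS _) (NmA_pos hS _)
  have hB : ∀ h : ℕ, (((UB D Ok z N X K n b j₁).filter (fun x => NmA D x ≤ h)).card : ℝ) ≤
      K₀ * C * wS β D z N K b.2.1 j₁ / Real.log (z n) ^ (1 - ε) * h := by
    intro h
    have e1 : UB D Ok z N X K n b j₁ = (SpA D Ok z N X K b.2.1 j₁).image (fun x => {x}) := by
      unfold UB
      rw [if_pos (by omega)]
    have h1 : ((UB D Ok z N X K n b j₁).filter (fun x => NmA D x ≤ h)).card ≤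
        ((SpA D Ok z N X K b.2.1 j₁).filter (fun a => D.nm a.1 ≤ h)).card := by
      rw [e1, Finset.filter_image]
      have e2 : ∀ b : D.P × D.O, NmA D {b} = D.nm b.1 := fun b => by simp [NmA]
      simp only [e2]
      exact Finset.card_image_le
    have h2 := cardSp (X := X) (K := K) hβ hOk hS hC hBT hV hOrd (j := j₁) (by omega) h
    have h3 : (((UB D Ok z N X K n b j₁).filter (fun x => NmA D x ≤ h)).card : ℝ) ≤
        (((SpA D Ok z N X K b.2.1 j₁).filter (fun a => D.nm a.1 ≤ h)).card : ℝ) := by exact_mod_cast h1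
    rcases Finset.eq_empty_or_nonempty ((SpA D Ok z N X K b.2.1 j₁).filter (fun a => D.nm a.1 ≤ h))
      with he | ⟨Q, hQ⟩
    · rw [he] at h3
      simp only [Finset.card_empty, Nat.cast_zero] at h3
      exact h3.trans (by positivity)
    · obtain ⟨g1, g2⟩ := Finset.mem_filter.mp hQ
      have g3 : z n < D.nm Q.1 := by
        have g5 := ((mem_SpA hS).mp g1).1.2.2.2.2.1
        have g4 : sc z N (D.nm Q.1) = n := by omega
        rw [← g4]
        exact sc_pos (by omega)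
      have g4 : Real.log (z n) ^ (1 - ε) ≤ Real.log h ^ (1 - ε) := by
        refine Real.rpow_le_rpow hlz.le ?_ (by linarith)
        exact Real.log_le_log (by exact_mod_cast (by omega : 0 < z n))
          (by exact_mod_cast (by omega : z n ≤ h))
      refine (h3.trans h2).trans ?_
      have g5 : (h : ℝ) / Real.log h ^ (1 - ε) ≤ h / Real.log (z n) ^ (1 - ε) :=
        div_le_div_of_nonneg_left (Nat.cast_nonneg h) hlzp g4
      calc K₀ * C * wS β D z N K b.2.1 j₁ * (h / Real.log h ^ (1 - ε)) ≤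
            K₀ * C * wS β D z N K b.2.1 j₁ * (h / Real.log (z n) ^ (1 - ε)) :=
            mul_le_mul_of_nonneg_left g5 (by positivity)
        _ = _ := by ring
  have h1 := tuple (fun x : Finset (D.P × D.O) => NmA D x) (UB D Ok z N X K n b)
    (fun j x _ => NmA_pos hS x) j₁
    (B := K₀ * C * wS β D z N K b.2.1 j₁ / Real.log (z n) ^ (1 - ε)) (by positivity) hB
    (d := Nm D b.1 * NmA D b.2.1) (X := X) hd
  rw [← hT] at h1
  have h3 : ∀ j, ∑ s ∈ UB D Ok z N X K n b j, (1 : ℝ) / NmA D s ≤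
      (if K j = n + 1 then EE ε C K₀ X * wS β D z N K b.2.1 j else 1) * ((1 : ℝ) / NmA D (b.2.2 j)) := by
    intro j
    unfold UB
    by_cases h : K j = n + 1
    · rw [if_pos h, if_pos h]
      have e2 : b.2.2 j = ∅ := by
        rw [← hb₀]
        show (if K j ≤ n then ω₀.2.2 j else ∅) = ∅
        rw [if_neg (by omega)]
      have e3 : (NmA D (b.2.2 j) : ℝ) = 1 := by
        rw [e2]
        simp [NmA]
      rw [e3, div_one, mul_one]
      exact sumSp hβ hOk hS hC hε hε1 hBT hV hX hOrd (by omega)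
    · rw [if_neg h, if_neg h, Finset.sum_singleton, one_mul]
  obtain ⟨V, hVd⟩ : ∃ V : Fin k → ℝ, V = fun j => (if K j = n + 1 then
    EE ε C K₀ X * wS β D z N K b.2.1 j else 1) * ((1 : ℝ) / NmA D (b.2.2 j)) := ⟨_, rfl⟩
  have hV0 : ∀ j, 0 ≤ V j := fun j => by
    rw [hVd]
    have := wS_pos hβ D z N K b.2.1 j
    show 0 ≤ (if K j = n + 1 then EE ε C K₀ X * wS β D z N K b.2.1 j else 1) *
      ((1 : ℝ) / NmA D (b.2.2 j))
    split_ifs <;> positivity
  have h4 : ∏ j ∈ Finset.univ.erase j₁, ∑ s ∈ UB D Ok z N X K n b j, (1 : ℝ) / NmA D s ≤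
      ∏ j ∈ Finset.univ.erase j₁, V j :=
    Finset.prod_le_prod (fun j _ => Finset.sum_nonneg fun s _ => by positivity) fun j _ => by
      rw [hVd]
      exact h3 j
  have hj1n : K j₁ = n + 1 := by omega
  have h5 : wS β D z N K b.2.1 j₁ ≤ V j₁ := by
    have e2 : b.2.2 j₁ = ∅ := by
      rw [← hb₀]
      show (if K j₁ ≤ n then ω₀.2.2 j₁ else ∅) = ∅
      rw [if_neg (by omega)]
    have e3 : (NmA D (b.2.2 j₁) : ℝ) = 1 := by
      rw [e2]
      simp [NmA]
    have e4 : V j₁ = EE ε C K₀ X * wS β D z N K b.2.1 j₁ := by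
      rw [hVd]
      show (if K j₁ = n + 1 then EE ε C K₀ X * wS β D z N K b.2.1 j₁ else 1) *
        ((1 : ℝ) / NmA D (b.2.2 j₁)) = _
      rw [if_pos hj1n, e3, div_one, mul_one]
    rw [e4]
    nlinarith
  have h6 : ∏ j, V j = EE ε C K₀ X ^ (Finset.univ.filter (fun j => K j = n + 1)).card *
        (∏ j ∈ Finset.univ.filter (fun j => K j = n + 1), wS β D z N K b.2.1 j) *
          ∏ j, (1 : ℝ) / NmA D (b.2.2 j) := by
    rw [hVd, Finset.prod_mul_distrib, ← Finset.prod_filter, Finset.prod_mul_distrib,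
      Finset.prod_const]
  have hX0 : (0 : ℝ) < X := by exact_mod_cast (by omega : 0 < X)
  have hP0 : 0 ≤ ∏ j ∈ Finset.univ.erase j₁, V j := Finset.prod_nonneg fun j _ => hV0 j
  -- the weights of the ordinary primes
  have h7 : ∏ a ∈ b.2.1, vA β D z N K n a = 1 / (NmA D b.2.1 : ℝ) *
      ∏ j ∈ Finset.univ.filter (fun j => K j = n + 1), wS β D z N K b.2.1 j := by
    rw [prod_vA_succ D z N K n b.2.1]
    congr 1
    have e6 : 1 / (NmA D b.2.1 : ℝ) = ∏ a ∈ b.2.1, (1 : ℝ) / D.nm a.1 := by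
      unfold NmA
      rw [Nat.cast_prod, Finset.prod_div_distrib, Finset.prod_const_one]
    rw [e6]
    refine Finset.prod_congr rfl fun a _ => ?_
    unfold vA
    have e5 : Finset.univ.filter (fun j => n + 1 < K j ∧ sc z N (D.nm a.1) + 3 ≤ K j) =
        (∅ : Finset (Fin k)) := by
      rw [Finset.filter_eq_empty_iff]
      intro j _ h
      have := hKN j
      omega
    rw [e5, Finset.sum_empty, pow_zero]
  have hKC : 0 ≤ (K₀ : ℝ) * C / Real.log (z n) ^ (1 - ε) := by positivity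
  have hd' : (0 : ℝ) < ((Nm D b.1 * NmA D b.2.1 : ℕ) : ℝ) := by exact_mod_cast hd
  rw [Finset.sum_const, nsmul_eq_mul, mul_one]
  have hcard' : (F.card : ℝ) ≤ (T.card : ℝ) := by exact_mod_cast hcard
  have hfilter : Finset.univ.filter (fun j => K j = N) =
      Finset.univ.filter (fun j => K j = n + 1) := by rw [hn]
  calc (F.card : ℝ) ≤ K₀ * C * wS β D z N K b.2.1 j₁ / Real.log (z n) ^ (1 - ε) *
        (X / (Nm D b.1 * NmA D b.2.1 : ℕ)) *
          ∏ j ∈ Finset.univ.erase j₁, ∑ s ∈ UB D Ok z N X K n b j, (1 : ℝ) / NmA D s := hcard'.trans h1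
    _ ≤ K₀ * C * wS β D z N K b.2.1 j₁ / Real.log (z n) ^ (1 - ε) *
        (X / (Nm D b.1 * NmA D b.2.1 : ℕ)) * ∏ j ∈ Finset.univ.erase j₁, V j :=
        mul_le_mul_of_nonneg_left h4 (by positivity)
    _ = K₀ * C / Real.log (z n) ^ (1 - ε) * (X / (Nm D b.1 * NmA D b.2.1 : ℕ)) *
        (wS β D z N K b.2.1 j₁ * ∏ j ∈ Finset.univ.erase j₁, V j) := by ring
    _ ≤ K₀ * C / Real.log (z n) ^ (1 - ε) * (X / (Nm D b.1 * NmA D b.2.1 : ℕ)) *
        (V j₁ * ∏ j ∈ Finset.univ.erase j₁, V j) := by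
        refine mul_le_mul_of_nonneg_left (mul_le_mul_of_nonneg_right h5 hP0) (by positivity)
    _ = K₀ * C / Real.log (z n) ^ (1 - ε) * (X / (Nm D b.1 * NmA D b.2.1 : ℕ)) * ∏ j, V j := by
        rw [Finset.mul_prod_erase Finset.univ V (Finset.mem_univ j₁)]
    _ = _ := by
        rw [h6, hfilter]
        unfold VC
        rw [h7]
        push_cast
        have := Nm_pos hS b.1
        have := NmA_pos hS b.2.1
        field_simp

open Classical in
/-- the count for fixed scales of the components -/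
theorem perKt (hβ : 0 < β) (hOk : ∀ m c, m ⊆ c → Ok c → Ok m) (hS : SysW D.P D.nm)
    (hC : 0 < C) (hε : 0 < ε) (hε1 : ε ≤ 1) (hBT : BTc D β Ok ε C A)
    (hV : ∀ p, (D.V p).card ≤ K₀) (hN : 2 ≤ N) (hz : 2 ≤ z (N - 1)) (hX : 3 ≤ X)
    (hKN : ∀ j, K j ≤ N) (hKne : (Js K (N - 1)).Nonempty) (S : Finset (Finset D.P))
    (hSc : ∀ c ∈ S, ∃ ω : Cfg D, Admo D Ok z N A X K ω ∧
      Nm D ω.1 * NmA D ω.2.1 * ∏ j, NmA D (ω.2.2 j) ≤ X ∧
      ω.1 ∪ (ω.2.1.image Prod.fst ∪ Finset.univ.biUnion fun j => (ω.2.2 j).image Prod.fst) = c)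
    {B : ℕ → ℝ} (hB : ∀ κ < N, ∀ t : D.P → Fin k → D.ι → G, SA β D z N X K κ t ≤ B κ) :
    (S.card : ℝ) ≤ K₀ * C * EE ε C K₀ X ^ k / Real.log (z (N - 1)) ^ (1 - ε) * X *
      Real.exp (D.Ex.card + ∑ κ ∈ Finset.range N, B κ) := by
  obtain ⟨j₁, hj₁⟩ := hKne
  have hj1 : K j₁ = N := by
    have h1 := (Finset.mem_filter.mp hj₁).2
    have h2 := hKN j₁
    omega
  have hch : ∀ c : Finset D.P, ∃ ω : Cfg D, c ∈ S → Admo D Ok z N A X K ω ∧
      Nm D ω.1 * NmA D ω.2.1 * ∏ j, NmA D (ω.2.2 j) ≤ X ∧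
      ω.1 ∪ (ω.2.1.image Prod.fst ∪ Finset.univ.biUnion fun j => (ω.2.2 j).image Prod.fst) = c := by
    intro c
    by_cases hc : c ∈ S
    · obtain ⟨ω, hω⟩ := hSc c hc
      exact ⟨ω, fun _ => hω⟩
    · exact ⟨(∅, ∅, fun _ => ∅), fun h => absurd h hc⟩
  choose Ω hΩ using hch
  obtain ⟨R, hRd⟩ : ∃ R, R = S.image Ω := ⟨_, rfl⟩
  have hcard : S.card = R.card := by
    rw [hRd]
    refine (Finset.card_image_of_injOn ?_).symm
    intro c hc c' hc' h
    rw [← (hΩ c (Finset.mem_coe.mp hc)).2.2, ← (hΩ c' (Finset.mem_coe.mp hc')).2.2, h]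
  have hR : ∀ ω ∈ R, Admo D Ok z N A X K ω := by
    intro ω hω
    rw [hRd] at hω
    obtain ⟨c, hc, rfl⟩ := Finset.mem_image.mp hω
    exact (hΩ c hc).1
  have hRX : ∀ ω ∈ R, Nm D ω.1 * NmA D ω.2.1 * ∏ j, NmA D (ω.2.2 j) ≤ X := by
    intro ω hω
    rw [hRd] at hω
    obtain ⟨c, hc, rfl⟩ := Finset.mem_image.mp hω
    exact (hΩ c hc).2.1
  have hE1 : 1 ≤ EE ε C K₀ X := EE_ge_one hC hε hX
  have hE0 : 0 ≤ EE ε C K₀ X := zero_le_one.trans hE1
  have h1 := topStage hβ hOk hS hC hε hε1 hBT hV hN hz hX hKN hj1 hR hRX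
  have h2 := stageA hβ hS hR (κ := N - 1) (fun t => hB (N - 1) (by omega) t)
  have h3 := chain hβ hOk hS hC hε hε1 hBT hV hX hR hB (N - 1) (by omega)
  have h4 : nb K (N - 1) + (Finset.univ.filter (fun j => K j = N)).card ≤ k := by
    have e1 : Finset.univ.filter (fun j => K j = N) =
        Finset.univ.filter (fun j => K j = N - 1 + 1) := by
      refine Finset.filter_congr fun j _ => ?_
      omega
    rw [e1, ← nb_succ]
    unfold nb
    refine (Finset.card_le_univ _).trans ?_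
    rw [Fintype.card_fin]
  have hlz : 0 ≤ Real.log (z (N - 1)) := Real.log_natCast_nonneg _
  have h5 : ∑ κ ∈ Finset.range N, B κ = ∑ κ ∈ Finset.range (N - 1), B κ + B (N - 1) := by
    have e1 : N = N - 1 + 1 := by omega
    conv_lhs => rw [e1]
    rw [Finset.sum_range_succ]
  rw [hcard]
  refine h1.trans ?_
  have h6 := h2.trans (mul_le_mul_of_nonneg_left h3 (Real.exp_pos _).le)
  have hF : 0 ≤ (K₀ : ℝ) * C / Real.log (z (N - 1)) ^ (1 - ε) * X *
      EE ε C K₀ X ^ (Finset.univ.filter (fun j => K j = N)).card := by positivity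
  refine (mul_le_mul_of_nonneg_left h6 hF).trans ?_
  have h7 : EE ε C K₀ X ^ (Finset.univ.filter (fun j => K j = N)).card *
      EE ε C K₀ X ^ nb K (N - 1) ≤ EE ε C K₀ X ^ k := by
    rw [← pow_add]
    exact pow_le_pow_right₀ hE1 (by omega)
  rw [h5, Real.exp_add, Real.exp_add]
  have hG : 0 ≤ (K₀ : ℝ) * C / Real.log (z (N - 1)) ^ (1 - ε) * X *
      (Real.exp D.Ex.card * (Real.exp (∑ κ ∈ Finset.range (N - 1), B κ) * Real.exp (B (N - 1)))) := by
    have := Real.exp_pos (D.Ex.card : ℝ)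
    positivity
  calc _ = (K₀ : ℝ) * C / Real.log (z (N - 1)) ^ (1 - ε) * X *
      (Real.exp D.Ex.card * (Real.exp (∑ κ ∈ Finset.range (N - 1), B κ) * Real.exp (B (N - 1)))) *
        (EE ε C K₀ X ^ (Finset.univ.filter (fun j => K j = N)).card * EE ε C K₀ X ^ nb K (N - 1)) := by
        ring
    _ ≤ (K₀ : ℝ) * C / Real.log (z (N - 1)) ^ (1 - ε) * X *
      (Real.exp D.Ex.card * (Real.exp (∑ κ ∈ Finset.range (N - 1), B κ) * Real.exp (B (N - 1)))) *
        EE ε C K₀ X ^ k := mul_le_mul_of_nonneg_left h7 hG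
    _ = _ := by ring

end top

end Pool.Agent.MLT99
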